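import Pool.Agent.Q5.LI.Fam
import Pool.Agent.Q18.P.Artin

/-!
# Artin `L`-functions over `ℚ`
-/

set_option autoImplicit false

open MeasureTheory Filter Topology Set Complex
open Pool.Agent.Q18.P (eig eig_norm eig_trace eig_det)

namespace Pool.Agent.Q5.LI

variable {G : Type} [Group G] [Finite G] {ι : Type} [Fintype ι] {d : ι → ℕ}

open scoped Classical in
/-- the local roots: the eigenvalues of `ρ_i(φ(p))` for `p ∉ S`, and `0` for `p ∈ S` -/
noncomputable def aA (r : (i : ι) → G →* Matrix (Fin (d i)) (Fin (d i)) ℂ) (φ : Nat.Primes → G)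
    (S : Set Nat.Primes) (i : ι) (p : Nat.Primes) (j : Fin (d i)) : ℂ :=
  if p ∈ S then 0 else eig (r i) (φ p) j

open scoped Classical in
/-- the local factors -/
noncomputable def lf {n : ℕ} (r : G →* Matrix (Fin n) (Fin n) ℂ) (φ : Nat.Primes → G)
    (S : Set Nat.Primes) (s : ℂ) (p : Nat.Primes) : ℂ :=
  if p ∈ S then 1 else ((1 - (p : ℂ) ^ (-s) • r (φ p)).det)⁻¹

open scoped Classical in
/-- the terms `tr ρ(φ(p)^k)`, `0` for `p ∈ S` -/
noncomputable def trS {n : ℕ} (r : G →* Matrix (Fin n) (Fin n) ℂ) (φ : Nat.Primes → G)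
    (S : Set Nat.Primes) (z : Nat.Primes × ℕ) : ℂ :=
  if z.1 ∈ S then 0 else (r (φ z.1 ^ (z.2 + 1))).trace

variable {r : (i : ι) → G →* Matrix (Fin (d i)) (Fin (d i)) ℂ} {φ : Nat.Primes → G}
  {S : Set Nat.Primes} {F : ι → ℂ → ℂ}

omit [Fintype ι] in
theorem aA_le (i : ι) (p : Nat.Primes) (j : Fin (d i)) : ‖aA r φ S i p j‖ ≤ 1 := by
  unfold aA
  split_ifs
  · simp
  · exact (eig_norm _ _ _).le

omit [Fintype ι] in
theorem aA_factor (i : ι) (p : Nat.Primes) (s : ℂ) :
    (∏ j, (1 - aA r φ S i p j * (p : ℂ) ^ (-s)))⁻¹ = lf (r i) φ S s p := by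
  unfold aA lf
  split_ifs
  · simp
  · rw [eig_det]

omit [Fintype ι] in
theorem aA_trace (i : ι) (z : Nat.Primes × ℕ) : ∑ j, aA r φ S i z.1 j ^ (z.2 + 1) = trS (r i) φ S z := by
  unfold aA trS
  split_ifs
  · simp
  · rw [eig_trace]

omit [Fintype ι] in
theorem aA_real (i : ι) (h : ∀ g : G, ((r i g).trace).im = 0) (p : Nat.Primes) (k : ℕ) :
    (∑ j, aA r φ S i p j ^ k).im = 0 := by
  rcases k with _ | k
  · simp
  · have h1 := aA_trace (r := r) (φ := φ) (S := S) i (p, k)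
    simp only at h1
    rw [h1]
    unfold trS
    split_ifs
    · simp
    · exact h _

theorem aA_real_sum (h : ∀ g : G, (∑ i, (r i g).trace).im = 0) (p : Nat.Primes) (k : ℕ) :
    (∑ i, ∑ j, aA r φ S i p j ^ k).im = 0 := by
  rcases k with _ | k
  · simp
  · have h1 : ∑ i, ∑ j, aA r φ S i p j ^ (k + 1) = ∑ i, trS (r i) φ S (p, k) :=
      Finset.sum_congr rfl fun i _ => aA_trace i (p, k)
    rw [h1]
    unfold trS
    split_ifs
    · simp
    · exact h _

/-- the family of the `L`-functions -/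
theorem art_fam (h : ∀ g : G, (∑ i, (r i g).trace).im = 0) (hc : ∀ i, Cont (F i))
    (hp : ∀ i (s : ℂ), 1 < s.re → HasProd (lf (r i) φ S s) (F i s)) : Fam (aA r φ S) F where
  le := aA_le
  real := aA_real_sum h
  cont := hc
  prod i s hs := (hp i s hs).congr_fun fun p => aA_factor i p s

omit [Fintype ι] in
theorem art_roots (i : ι) (h : ∀ g : G, ((r i g).trace).im = 0) : RootsH (aA r φ S i) where
  le := aA_le i
  real := aA_real i h

omit [Fintype ι] in
theorem art_temp (i : ι) (hc : Cont (F i)) (hp : ∀ s : ℂ, 1 < s.re → HasProd (lf (r i) φ S s) (F i s)) :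
    TempH (aA r φ S i) (F i) where
  cont := hc
  prod s hs := (hp s hs).congr_fun fun p => aA_factor i p s

/-- the explicit form of the error term -/
theorem art_err {n : ℕ} {β : Nat.Primes → Fin n → ℂ} {T : Nat.Primes × ℕ → ℂ}
    (hT : ∀ z, ∑ j, β z.1 j ^ (z.2 + 1) = T z) {ρ A x : ℝ} (hA : 0 < A) (hx : Real.exp 1 ≤ x) :
    dStarH β ρ A x = Real.log A -
      (∑ᶠ (z : Nat.Primes × ℕ) (_ : (z.1 : ℝ) ^ (z.2 + 1) ≤ x),
        (T z).re / (((z.2 : ℝ) + 1) * √(z.1 : ℝ) ^ (z.2 + 1))) -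
      ρ * (Real.eulerMascheroniConstant + Real.log (Real.log x)) := by
  have hl : 0 < Real.log x := by linarith [Pool.Agent.TH270.MS.one_le_log hx]
  have h1 : 0 < Real.exp Real.eulerMascheroniConstant * Real.log x := mul_pos (Real.exp_pos _) hl
  have h2 := Real.rpow_pos_of_pos h1 ρ
  have h3 : 0 < pStarH β x := Real.exp_pos _
  unfold dStarH
  rw [Real.log_div (mul_pos hA h3).ne' h2.ne', Real.log_mul hA.ne' h3.ne', Real.log_rpow h1,
    Real.log_mul (Real.exp_pos _).ne' hl.ne', Real.log_exp]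
  unfold pStarH
  rw [Real.log_exp]
  simp only [hT]
  ring

end Pool.Agent.Q5.LI
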