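import Mathlib

/-!
# Averages of exponentials over arithmetic progressions
-/

set_option autoImplicit false

open Filter Topology Set Complex

namespace Pool.Agent.Q5.LI

/-- `(1/N) ∑_{j < N} e^{ijx}` -/
noncomputable def DN (N : ℕ) (x : ℝ) : ℂ := (∑ j ∈ Finset.range N, exp (((j : ℝ) * x : ℝ) * I)) / N

theorem DN_norm (N : ℕ) (x : ℝ) : ‖DN N x‖ ≤ 1 := by
  unfold DN
  rw [norm_div, Complex.norm_natCast]
  rcases Nat.eq_zero_or_pos N with h | h
  · rw [h]
    simp
  · have hN : (0 : ℝ) < N := by exact_mod_cast h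
    rw [div_le_one hN]
    refine (norm_sum_le _ _).trans ?_
    simp only [Complex.norm_exp_ofReal_mul_I]
    simp

theorem DN_zero {N : ℕ} (hN : 0 < N) : DN N 0 = 1 := by
  unfold DN
  have hN : (N : ℂ) ≠ 0 := by exact_mod_cast hN.ne'
  simp [hN]

theorem DN_tendsto {x : ℝ} (hx : exp (x * I) ≠ 1) : Tendsto (fun N => DN N x) atTop (𝓝 0) := by
  have h1 : ∀ N, DN N x = ((exp (x * I)) ^ N - 1) / (exp (x * I) - 1) / N := by
    intro N
    unfold DN
    rw [← geom_sum_eq hx]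
    congr 1
    refine Finset.sum_congr rfl fun j _ => ?_
    rw [← Complex.exp_nat_mul]
    congr 1
    push_cast
    ring
  have h2 : ∀ N : ℕ, ‖DN N x‖ ≤ 2 / ‖exp (x * I) - 1‖ / N := by
    intro N
    rw [h1, norm_div, norm_div, Complex.norm_natCast]
    have h3 : ‖(exp (x * I)) ^ N - 1‖ ≤ 2 := by
      refine (norm_sub_le _ _).trans ?_
      rw [norm_pow, Complex.norm_exp_ofReal_mul_I, one_pow, norm_one]
      norm_num
    gcongr
  refine squeeze_zero_norm h2 ?_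
  exact tendsto_const_nhds.div_atTop tendsto_natCast_atTop_atTop

theorem bad_countable {d : ℝ} (hd : d ≠ 0) : {l : ℝ | exp ((l * d : ℝ) * I) = 1}.Countable := by
  have h1 : {l : ℝ | exp ((l * d : ℝ) * I) = 1} ⊆ Set.range fun k : ℤ => (k : ℝ) * (2 * Real.pi) / d := by
    intro l hl
    rw [Set.mem_setOf_eq, Complex.exp_eq_one_iff] at hl
    obtain ⟨k, hk⟩ := hl
    refine ⟨k, ?_⟩
    have h2 : ((l * d : ℝ) : ℂ) = ((k * (2 * Real.pi) : ℝ) : ℂ) := by
      have h3 : ((l * d : ℝ) : ℂ) * I = ((k * (2 * Real.pi) : ℝ) : ℂ) * I := by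
        rw [hk]
        push_cast
        ring
      exact mul_right_cancel₀ I_ne_zero h3
    have h4 : l * d = k * (2 * Real.pi) := by exact_mod_cast h2
    show (k : ℝ) * (2 * Real.pi) / d = l
    rw [← h4]
    field_simp
  exact (Set.countable_range _).mono h1

/-- a generic step -/
theorem exists_step {D : Set ℝ} (hD : D.Countable) :
    ∃ l : ℝ, 0 < l ∧ ∀ d ∈ D, d ≠ 0 → exp ((l * d : ℝ) * I) ≠ 1 := by
  have h1 : (⋃ d ∈ D \ {0}, {l : ℝ | exp ((l * d : ℝ) * I) = 1}).Countable :=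
    (hD.mono Set.diff_subset).biUnion fun d hd => bad_countable (by simpa using hd.2)
  have h2 : ¬ (Ioi (0 : ℝ)).Countable := by
    rw [← Cardinal.le_aleph0_iff_set_countable, Cardinal.mk_Ioi_real, not_le]
    exact Cardinal.aleph0_lt_continuum
  obtain ⟨l, hl, hl2⟩ : ∃ l ∈ Ioi (0 : ℝ), l ∉ ⋃ d ∈ D \ {0}, {l : ℝ | exp ((l * d : ℝ) * I) = 1} := by
    by_contra h
    push Not at h
    exact h2 (h1.mono h)
  refine ⟨l, hl, fun d hd hd0 h => hl2 ?_⟩
  simp only [Set.mem_iUnion]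
  exact ⟨d, ⟨hd, by simpa using hd0⟩, h⟩

end Pool.Agent.Q5.LI
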