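import Pool.Agent.Q5.AP.ExpMean

/-!
# The characteristic function of a point on a circle: `J₀(2|z|) = ∑ (-|z|²)^k/(k!)²`
-/

set_option autoImplicit false

open Filter Topology Set Complex

namespace Pool.Agent.Q5.LI

/-- the terms `(-|z|²)^k/(k!)²` -/
noncomputable def bt (z : ℂ) (k : ℕ) : ℝ := (-(‖z‖ ^ 2)) ^ k / ((k.factorial : ℝ) ^ 2)

/-- `J₀(2|z|)` -/
noncomputable def bz (z : ℂ) : ℝ := ∑' k : ℕ, bt z k

theorem bt_le (z : ℂ) (k : ℕ) : |bt z k| ≤ (‖z‖ ^ 2) ^ k / (k.factorial : ℝ) := by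
  unfold bt
  rw [abs_div, abs_pow, abs_neg, abs_of_nonneg (sq_nonneg ‖z‖), abs_of_pos (by positivity)]
  have h1 : (1 : ℝ) ≤ k.factorial := by exact_mod_cast k.factorial_pos
  gcongr
  nlinarith

theorem bt_summable (z : ℂ) : Summable (bt z) :=
  Summable.of_norm_bounded (Real.summable_pow_div_factorial (‖z‖ ^ 2)) fun k => bt_le z k

theorem bz_hasSum (z : ℂ) : HasSum (bt z) (bz z) := (bt_summable z).hasSum

theorem bz_zero : bz 0 = 1 := by
  have h : ∀ k : ℕ, k ≠ 0 → bt 0 k = 0 := by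
    intro k hk
    unfold bt
    rw [norm_zero]
    simp [hk]
  unfold bz
  rw [tsum_eq_single 0 fun k hk => h k hk]
  simp [bt]

/-- the second order expansion: `|bz z - (1 - |z|²)| ≤ |z|⁴` for `|z| ≤ 1` -/
theorem bz_exp {z : ℂ} (hz : ‖z‖ ≤ 1) : |bz z - (1 - ‖z‖ ^ 2)| ≤ ‖z‖ ^ 4 := by
  have h0 := (bt_summable z).sum_add_tsum_nat_add 2
  have e0 : ∑ i ∈ Finset.range 2, bt z i = 1 - ‖z‖ ^ 2 := by
    rw [Finset.sum_range_succ, Finset.sum_range_one]
    unfold bt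
    simp
    ring
  have e1 : bz z - (1 - ‖z‖ ^ 2) = ∑' k : ℕ, bt z (k + 2) := by
    unfold bz
    rw [← h0, e0]
    ring
  rw [e1]
  have h1 : ∀ k : ℕ, ‖bt z (k + 2)‖ ≤ ‖z‖ ^ 4 * (1 / 2 : ℝ) ^ (k + 1) := by
    intro k
    have h2 := bt_le z (k + 2)
    rw [Real.norm_eq_abs]
    refine h2.trans ?_
    have h3 : (‖z‖ ^ 2) ^ (k + 2) = ‖z‖ ^ 4 * (‖z‖ ^ 2) ^ k := by ring
    have h4 : (‖z‖ ^ 2) ^ k ≤ 1 := pow_le_one₀ (by positivity) (pow_le_one₀ (norm_nonneg z) hz)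
    have h5 : (2 : ℝ) ^ (k + 1) ≤ (k + 2).factorial := by
      have h6 : ∀ m : ℕ, 2 ^ (m + 1) ≤ (m + 2).factorial := by
        intro m
        induction m with
        | zero => simp
        | succ m ih =>
          rw [Nat.factorial_succ, pow_succ]
          nlinarith
      exact_mod_cast h6 k
    rw [h3, mul_div_assoc]
    refine mul_le_mul_of_nonneg_left ?_ (by positivity)
    rw [one_div, inv_pow, ← one_div]
    calc (‖z‖ ^ 2) ^ k / ((k + 2).factorial : ℝ) ≤ 1 / ((k + 2).factorial : ℝ) := by gcongr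
      _ ≤ 1 / 2 ^ (k + 1) := by gcongr
  have hg : HasSum (fun k : ℕ => ‖z‖ ^ 4 * (1 / 2 : ℝ) ^ (k + 1)) (‖z‖ ^ 4 * 1) := by
    refine HasSum.mul_left _ ?_
    have h2 := hasSum_geometric_two.mul_left (1 / 2 : ℝ)
    convert! h2 using 1
    · funext k
      rw [pow_succ]
      ring
    · norm_num
  have h2 := tsum_of_norm_bounded hg h1
  rwa [mul_one, Real.norm_eq_abs] at h2

/-- truncation -/
noncomputable def bn (N : ℕ) (z : ℂ) : ℝ := ∑ k ∈ Finset.range N, bt z k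

theorem bn_tendsto (z : ℂ) : Tendsto (fun N => bn N z) atTop (𝓝 (bz z)) :=
  (bz_hasSum z).tendsto_sum_nat

end Pool.Agent.Q5.LI
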