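import Pool.Agent.Q5.LI.Half
import Pool.Agent.H855R2.SF.Dir

/-!
# The nonprincipal characters modulo `q`
-/

set_option autoImplicit false

open MeasureTheory Filter Topology Set Complex

namespace Pool.Agent.Q5.LI

/-- orders of products -/
theorem ord_prod {ι : Type*} (s : Finset ι) (f : ι → ℂ → ℂ) (z : ℂ) (ha : ∀ i ∈ s, AnalyticAt ℂ (f i) z)
    (ht : ∀ i ∈ s, analyticOrderAt (f i) z ≠ ⊤) :
    (analyticOrderAt (fun w => ∏ i ∈ s, f i w) z).toNat = ∑ i ∈ s, (analyticOrderAt (f i) z).toNat := by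
  classical
  have key : AnalyticAt ℂ (fun w => ∏ i ∈ s, f i w) z ∧
      analyticOrderAt (fun w => ∏ i ∈ s, f i w) z ≠ ⊤ ∧
      (analyticOrderAt (fun w => ∏ i ∈ s, f i w) z).toNat = ∑ i ∈ s, (analyticOrderAt (f i) z).toNat := by
    induction s using Finset.induction_on with
    | empty =>
      have h1 : analyticOrderAt (fun _ : ℂ => (1 : ℂ)) z = 0 :=
        (analyticAt_const.analyticOrderAt_eq_zero).2 one_ne_zero
      simp only [Finset.prod_empty, Finset.sum_empty]
      exact ⟨analyticAt_const, by rw [h1]; simp, by rw [h1]; rfl⟩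
    | insert i s hi ih =>
      obtain ⟨h1, h2, h3⟩ := ih (fun j hj => ha j (Finset.mem_insert_of_mem hj))
        fun j hj => ht j (Finset.mem_insert_of_mem hj)
      have h4 := ha i (Finset.mem_insert_self i s)
      have h5 := ht i (Finset.mem_insert_self i s)
      have e : (fun w => ∏ j ∈ insert i s, f j w) = f i * fun w => ∏ j ∈ s, f j w := by
        funext w
        rw [Finset.prod_insert hi]
        rfl
      rw [e]
      have h6 := analyticOrderAt_mul h4 h1
      refine ⟨h4.mul h1, ?_, ?_⟩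
      · rw [h6]
        exact WithTop.add_ne_top.2 ⟨h5, h2⟩
      · rw [h6, ENat.toNat_add h5 h2, h3, Finset.sum_insert hi]
  exact key.2.2

/-- an entire function which does not vanish identically has finite orders -/
theorem ord_ne_top {f : ℂ → ℂ} (hf : Differentiable ℂ f) {w : ℂ} (hw : f w ≠ 0) (z : ℂ) :
    analyticOrderAt f z ≠ ⊤ := by
  intro h
  rw [analyticOrderAt_eq_top] at h
  have h1 : AnalyticOnNhd ℂ f univ := fun x _ => hf.analyticAt x
  have h2 := h1.eqOn_zero_of_preconnected_of_eventuallyEq_zero isPreconnected_univ (mem_univ z) h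
  exact hw (h2 (mem_univ w))

variable (q : ℕ) [NeZero q]

/-- the nonprincipal characters modulo `q` -/
abbrev NP : Type := {χ : DirichletCharacter ℂ q // χ ≠ 1}

noncomputable instance : Fintype (NP q) := Fintype.ofFinite _

/-- an enumeration -/
noncomputable def en : Fin (Fintype.card (NP q)) ≃ NP q := (Fintype.equivFin (NP q)).symm

/-- the local roots -/
noncomputable def aD (p : Nat.Primes) (j : Fin (Fintype.card (NP q))) : ℂ := (en q j).1 ((p : ℕ) : ZMod q)

/-- the product of the `L`-functions -/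
noncomputable def LD (s : ℂ) : ℂ := ∏ χ : NP q, DirichletCharacter.LFunction χ.1 s

theorem aD_sum (p : Nat.Primes) (k : ℕ) : ∑ j, aD q p j ^ k =
    (((if (((p : ℕ) ^ k : ℕ) : ZMod q) = 1 then (q.totient : ℝ) else 0) -
      (if IsUnit (((p : ℕ) ^ k : ℕ) : ZMod q) then 1 else 0) : ℝ) : ℂ) := by
  classical
  have h1 : ∑ j, aD q p j ^ k = ∑ χ : NP q, χ.1 (((p : ℕ) ^ k : ℕ) : ZMod q) := by
    unfold aD
    rw [← Equiv.sum_comp (en q)]
    refine Finset.sum_congr rfl fun j _ => ?_
    rw [Nat.cast_pow, map_pow]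
  have h2 : ∑ χ : DirichletCharacter ℂ q, χ (((p : ℕ) ^ k : ℕ) : ZMod q) =
      (1 : DirichletCharacter ℂ q) (((p : ℕ) ^ k : ℕ) : ZMod q) +
        ∑ χ : NP q, χ.1 (((p : ℕ) ^ k : ℕ) : ZMod q) := by
    rw [← Finset.add_sum_erase Finset.univ _ (Finset.mem_univ (1 : DirichletCharacter ℂ q))]
    congr 1
    rw [← Finset.sum_subtype (Finset.univ.erase (1 : DirichletCharacter ℂ q)) (p := fun χ => χ ≠ 1)
      (fun χ => by simp) fun χ => χ (((p : ℕ) ^ k : ℕ) : ZMod q)]
  rw [DirichletCharacter.sum_characters_eq] at h2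
  rw [h1]
  have h3 : ∑ χ : NP q, χ.1 (((p : ℕ) ^ k : ℕ) : ZMod q) =
      (if (((p : ℕ) ^ k : ℕ) : ZMod q) = 1 then (q.totient : ℂ) else 0) -
        (1 : DirichletCharacter ℂ q) (((p : ℕ) ^ k : ℕ) : ZMod q) := by
    rw [h2]
    ring
  rw [h3, Complex.ofReal_sub]
  congr 1
  · split_ifs <;> simp
  · by_cases hu : IsUnit (((p : ℕ) ^ k : ℕ) : ZMod q)
    · rw [if_pos hu, MulChar.one_apply hu]
      simp
    · rw [if_neg hu, MulChar.map_nonunit _ hu]
      simp

theorem roots_D : RootsH (aD q) where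
  le p j := DirichletCharacter.norm_le_one _ _
  real p k := by
    rw [aD_sum, Complex.ofReal_im]

theorem LD_diff : Differentiable ℂ (LD q) := by
  unfold LD
  intro s
  exact DifferentiableAt.fun_finsetProd fun χ _ => (DirichletCharacter.differentiable_LFunction χ.2) s

theorem temp_D : TempH (aD q) (LD q) where
  cont := by
    refine ⟨1 / 4, (4 * (q + 1 : ℝ)) ^ Fintype.card (NP q), Fintype.card (NP q), by norm_num, fun s hs => ?_⟩
    refine ⟨LD_diff q s, ?_⟩
    have hs' : 1 / 4 < s.re := by linarith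
    unfold LD
    rw [norm_prod, ← mul_pow]
    have h1 : ∀ χ : NP q, ‖DirichletCharacter.LFunction χ.1 s‖ ≤ 4 * (q + 1 : ℝ) * (1 + ‖s‖) := by
      intro χ
      refine (H855R2.SF.growth_right χ.2 (by linarith : 0 < s.re)).trans ?_
      have h2 : (q + 1 : ℝ) / s.re ≤ 4 * (q + 1 : ℝ) := by
        rw [div_le_iff₀ (by linarith)]
        have : (0 : ℝ) < q + 1 := by positivity
        nlinarith
      have h3 : ‖s‖ * ((q + 1 : ℝ) / s.re) ≤ ‖s‖ * (4 * (q + 1 : ℝ)) :=
        mul_le_mul_of_nonneg_left h2 (norm_nonneg s)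
      have h4 : (0 : ℝ) < 4 * (q + 1 : ℝ) := by positivity
      nlinarith [norm_nonneg s]
    calc ∏ χ : NP q, ‖DirichletCharacter.LFunction χ.1 s‖ ≤ ∏ _χ : NP q, 4 * (q + 1 : ℝ) * (1 + ‖s‖) :=
          Finset.prod_le_prod (fun χ _ => norm_nonneg _) fun χ _ => h1 χ
      _ = (4 * (q + 1 : ℝ) * (1 + ‖s‖)) ^ Fintype.card (NP q) := by
        rw [Finset.prod_const, Finset.card_univ]
  prod s hs := by
    have h1 : HasProd (fun p : Nat.Primes => ∏ χ : NP q, (1 - χ.1 ((p : ℕ) : ZMod q) * (p : ℂ) ^ (-s))⁻¹)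
        (∏ χ : NP q, DirichletCharacter.LFunction χ.1 s) := by
      refine hasProd_prod fun χ _ => ?_
      rw [DirichletCharacter.LFunction_eq_LSeries χ.1 hs]
      exact DirichletCharacter.LSeries_eulerProduct_hasProd χ.1 hs
    refine h1.congr_fun fun p => ?_
    unfold aD
    rw [Finset.prod_inv_distrib, ← Equiv.prod_comp (en q)]

/-- the multiplicities -/
theorem mult_D (t : ℝ) : multH (LD q) t =
    ∑ χ : NP q, (analyticOrderAt (DirichletCharacter.LFunction χ.1) (1 / 2 + t * I)).toNat := by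
  unfold multH LD
  refine ord_prod Finset.univ (fun χ : NP q => DirichletCharacter.LFunction χ.1) _
    (fun χ _ => (DirichletCharacter.differentiable_LFunction χ.2).analyticAt _) fun χ _ => ?_
  exact ord_ne_top (DirichletCharacter.differentiable_LFunction χ.2) (w := 2)
    (DirichletCharacter.LFunction_ne_zero_of_one_le_re χ.1 (Or.inl χ.2) (by norm_num)) _

end Pool.Agent.Q5.LI
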