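import Pool.Agent.Q5.LI.Joint
import Pool.Agent.Q5.LI.Dir

/-!
# Families of `L`-functions
-/

set_option autoImplicit false

open MeasureTheory Filter Topology Set Complex

namespace Pool.Agent.Q5.LI

/-- holomorphic of polynomial growth for `Re s > 1/2 - η` -/
def Cont (F : ℂ → ℂ) : Prop := ∃ (η C : ℝ) (κ : ℕ), 0 < η ∧
  ∀ s : ℂ, 1 / 2 - η < s.re → DifferentiableAt ℂ F s ∧ ‖F s‖ ≤ C * (1 + ‖s‖) ^ κ

variable {ι : Type} [Fintype ι]

omit [Fintype ι] in
theorem cont_prod {F : ι → ℂ → ℂ} (s : Finset ι) (h : ∀ i ∈ s, Cont (F i)) :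
    Cont fun z => ∏ i ∈ s, F i z := by
  classical
  induction s using Finset.induction_on with
  | empty =>
    refine ⟨1, 1, 0, one_pos, fun s _ => ?_⟩
    simp only [Finset.prod_empty]
    exact ⟨differentiableAt_const _, by simp⟩
  | insert i s hi ih =>
    obtain ⟨η₁, C₁, κ₁, h1, k1⟩ := h i (Finset.mem_insert_self i s)
    obtain ⟨η₂, C₂, κ₂, h2, k2⟩ := ih fun j hj => h j (Finset.mem_insert_of_mem hj)
    refine ⟨min η₁ η₂, |C₁| * |C₂|, κ₁ + κ₂, lt_min h1 h2, fun z hz => ?_⟩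
    have e1 : 1 / 2 - η₁ < z.re := lt_of_le_of_lt (by linarith [min_le_left η₁ η₂]) hz
    have e2 : 1 / 2 - η₂ < z.re := lt_of_le_of_lt (by linarith [min_le_right η₁ η₂]) hz
    obtain ⟨d1, b1⟩ := k1 z e1
    obtain ⟨d2, b2⟩ := k2 z e2
    have e : (fun z => ∏ j ∈ insert i s, F j z) = fun z => F i z * ∏ j ∈ s, F j z := by
      funext w
      rw [Finset.prod_insert hi]
    rw [e]
    refine ⟨d1.mul d2, ?_⟩
    simp only
    rw [norm_mul, pow_add]
    have hp1 : 0 ≤ (1 + ‖z‖) ^ κ₁ := by positivity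
    have hp2 : 0 ≤ (1 + ‖z‖) ^ κ₂ := by positivity
    have b1' : ‖F i z‖ ≤ |C₁| * (1 + ‖z‖) ^ κ₁ :=
      b1.trans (mul_le_mul_of_nonneg_right (le_abs_self _) hp1)
    have b2' : ‖∏ j ∈ s, F j z‖ ≤ |C₂| * (1 + ‖z‖) ^ κ₂ :=
      b2.trans (mul_le_mul_of_nonneg_right (le_abs_self _) hp2)
    calc ‖F i z‖ * ‖∏ j ∈ s, F j z‖ ≤ (|C₁| * (1 + ‖z‖) ^ κ₁) * (|C₂| * (1 + ‖z‖) ^ κ₂) :=
          mul_le_mul b1' b2' (norm_nonneg _) (by positivity)
      _ = _ := by ring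

variable {n : ι → ℕ} {α : (i : ι) → Nat.Primes → Fin (n i) → ℂ} {F : ι → ℂ → ℂ}

/-- a family of Euler products with real total power sums -/
structure Fam (α : (i : ι) → Nat.Primes → Fin (n i) → ℂ) (F : ι → ℂ → ℂ) : Prop where
  le : ∀ i p j, ‖α i p j‖ ≤ 1
  real : ∀ p (k : ℕ), (∑ i, ∑ j, α i p j ^ k).im = 0
  cont : ∀ i, Cont (F i)
  prod : ∀ i (s : ℂ), 1 < s.re →
    HasProd (fun p : Nat.Primes => (∏ j, (1 - α i p j * (p : ℂ) ^ (-s)))⁻¹) (F i s)

/-- an enumeration of all the roots -/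
noncomputable def es (n : ι → ℕ) : Fin (Fintype.card (Σ i, Fin (n i))) ≃ Σ i, Fin (n i) :=
  (Fintype.equivFin _).symm

/-- all the roots -/
noncomputable def aS (α : (i : ι) → Nat.Primes → Fin (n i) → ℂ) (p : Nat.Primes)
    (j : Fin (Fintype.card (Σ i, Fin (n i)))) : ℂ := α (es n j).1 p (es n j).2

theorem aS_sum (p : Nat.Primes) (k : ℕ) : ∑ j, aS α p j ^ k = ∑ i, ∑ j, α i p j ^ k := by
  unfold aS
  rw [Equiv.sum_comp (es n) fun x => α x.1 p x.2 ^ k, Fintype.sum_sigma]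

theorem aS_prod (p : Nat.Primes) (z : ℂ) :
    ∏ j, (1 - aS α p j * z) = ∏ i, ∏ j, (1 - α i p j * z) := by
  unfold aS
  rw [Equiv.prod_comp (es n) fun x => 1 - α x.1 p x.2 * z, Fintype.prod_sigma]

theorem fam_roots (H : Fam α F) : RootsH (aS α) where
  le p j := H.le _ _ _
  real p k := by
    rw [aS_sum]
    exact H.real p k

theorem fam_temp (H : Fam α F) : TempH (aS α) fun s => ∏ i, F i s where
  cont := cont_prod Finset.univ fun i _ => H.cont i
  prod s hs := by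
    have h1 : HasProd (fun p : Nat.Primes => ∏ i, (∏ j, (1 - α i p j * (p : ℂ) ^ (-s)))⁻¹)
        (∏ i, F i s) := hasProd_prod fun i _ => H.prod i s hs
    refine h1.congr_fun fun p => ?_
    rw [aS_prod, Finset.prod_inv_distrib]

/-- the Euler product does not vanish everywhere -/
theorem tempH_ne {N : ℕ} {β : Nat.Primes → Fin N → ℂ} {G : ℂ → ℂ} (R : RootsH β) (hG : TempH β G) :
    ∃ w : ℂ, 1 < w.re ∧ G w ≠ 0 := by
  obtain ⟨G₀, k, κ, η, C, H⟩ := mcH R hG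
  obtain ⟨e, g, p, he, Q⟩ := H.cn
  refine ⟨((1 / 2 : ℝ) : ℂ) + 2, by simp; norm_num, ?_⟩
  have h1 := Q.hexp 2 (by norm_num)
  have h2 := H.hΨ 2 (by
    have := H.hη
    norm_num
    linarith) two_ne_zero
  intro h0
  rw [h2, h0, mul_zero] at h1
  exact (mul_ne_zero (pow_ne_zero _ two_ne_zero) (exp_ne_zero _)) h1

theorem cont_ord {G : ℂ → ℂ} (hG : Cont G) {w : ℂ} (hw : 1 < w.re) (h0 : G w ≠ 0) {z : ℂ}
    (hz : 1 / 2 ≤ z.re) : AnalyticAt ℂ G z ∧ analyticOrderAt G z ≠ ⊤ := by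
  obtain ⟨η, C, κ, hη, h⟩ := hG
  have hU : IsOpen {s : ℂ | 1 / 2 - η < s.re} := isOpen_lt continuous_const Complex.continuous_re
  have han : AnalyticOnNhd ℂ G {s : ℂ | 1 / 2 - η < s.re} :=
    DifferentiableOn.analyticOnNhd (fun z hz => (h z hz).1.differentiableWithinAt) hU
  have hz' : z ∈ {s : ℂ | 1 / 2 - η < s.re} := by
    show 1 / 2 - η < z.re
    linarith
  refine ⟨han z hz', fun h1 => ?_⟩
  rw [analyticOrderAt_eq_top] at h1
  have h2 := han.eqOn_zero_of_preconnected_of_eventuallyEq_zero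
    (convex_halfSpace_re_gt (1 / 2 - η)).isPreconnected hz' h1
  exact h0 (h2 (show 1 / 2 - η < w.re by linarith))

/-- the multiplicities of the product -/
theorem fam_mult (H : Fam α F) : multH (fun s => ∏ i, F i s) = tot fun i => multH (F i) := by
  funext t
  obtain ⟨w, hw, h0⟩ := tempH_ne (fam_roots H) (fam_temp H)
  rw [Finset.prod_ne_zero_iff] at h0
  have h1 : ∀ i, AnalyticAt ℂ (F i) (1 / 2 + t * I) ∧ analyticOrderAt (F i) (1 / 2 + t * I) ≠ ⊤ :=
    fun i => cont_ord (H.cont i) hw (h0 i (Finset.mem_univ i)) (by simp)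
  unfold multH tot
  exact ord_prod Finset.univ F _ (fun i _ => (h1 i).1) fun i _ => (h1 i).2

theorem fam_rh : RHH (fun s => ∏ i, F i s) ↔ ∀ i, RHH (F i) := by
  unfold RHH
  constructor
  · intro h i s hs
    have h1 := h s hs
    rw [Finset.prod_ne_zero_iff] at h1
    exact h1 i (Finset.mem_univ i)
  · intro h s hs
    rw [Finset.prod_ne_zero_iff]
    exact fun i _ => h i s hs

/-- **The criterion with one error term for a family.** -/
theorem fam_tfae (H : Fam α F) {ρ A : ℝ} (hA : 0 < A) :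
    ((∀ i, RHH (F i)) ∧ LeadH (fun s => ∏ i, F i s) ρ A) ∧ LinInd (tot fun i => multH (F i)) ↔
      Pool.Agent.Q5.BP.BSq (dStarH (aS α) ρ A) ∧
        RandomModel (tot fun i => multH (F i)) fun x => Real.log x * dStarH (aS α) ρ A x := by
  rw [← fam_rh, ← fam_mult H]
  exact li_tfae (fam_roots H) (fam_temp H) hA

theorem fam_exists (H : Fam α F) :
    (∀ i, RHH (F i)) ∧ LinInd (tot fun i => multH (F i)) ↔ ∃ ρ A : ℝ, 0 < A ∧
      Pool.Agent.Q5.BP.BSq (dStarH (aS α) ρ A) ∧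
        RandomModel (tot fun i => multH (F i)) fun x => Real.log x * dStarH (aS α) ρ A x := by
  rw [← fam_rh, ← fam_mult H]
  exact li_exists (fam_roots H) (fam_temp H)

/-- **The criterion with one error term for each member.** -/
theorem real_tfae (R : ∀ i, RootsH (α i)) (hF : ∀ i, TempH (α i) (F i)) {ρ A : ι → ℝ}
    (hA : ∀ i, 0 < A i) :
    List.TFAE [(∀ i, RHH (F i) ∧ LeadH (F i) (ρ i) (A i)) ∧ LinInd (tot fun i => multH (F i)),
      (∀ i, Pool.Agent.Q5.BP.BSq (dStarH (α i) (ρ i) (A i))) ∧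
        JointRandomModel (fun i => multH (F i)) fun i x => Real.log x * dStarH (α i) (ρ i) (A i) x,
      (∀ i, Pool.Agent.Q5.BP.BSq (dStarH (α i) (ρ i) (A i))) ∧
        RandomModel (tot fun i => multH (F i)) fun x =>
          ∑ i, Real.log x * dStarH (α i) (ρ i) (A i) x] := by
  have hW : ∀ i, Pool.Agent.TH270.MS.BM fun x => Real.log x * dStarH (α i) (ρ i) (A i) x :=
    fun i => (errH (R i) (hF i) (hA i)).1
  have h1 : ∀ i, RHH (F i) ∧ LeadH (F i) (ρ i) (A i) ↔ Pool.Agent.Q5.BP.BSq (dStarH (α i) (ρ i) (A i)) :=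
    fun i => (errH (R i) (hF i) (hA i)).2.1.out 0 1
  have h2 : (∀ i, RHH (F i) ∧ LeadH (F i) (ρ i) (A i)) → List.TFAE [LinInd (tot fun i => multH (F i)),
      JointRandomModel (fun i => multH (F i)) fun i x => Real.log x * dStarH (α i) (ρ i) (A i) x,
      RandomModel (tot fun i => multH (F i)) fun x =>
          ∑ i, Real.log x * dStarH (α i) (ρ i) (A i) x] := by
    intro h
    choose V _ P using fun i => (errH (R i) (hF i) (hA i)).2.2.2 (h i)
    exact joint_iff hW P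
  tfae_have 1 ↔ 2 := by
    constructor
    · rintro ⟨k1, k2⟩
      exact ⟨fun i => (h1 i).1 (k1 i), ((h2 k1).out 0 1).1 k2⟩
    · rintro ⟨k1, k2⟩
      have k3 := fun i => (h1 i).2 (k1 i)
      exact ⟨k3, ((h2 k3).out 0 1).2 k2⟩
  tfae_have 1 ↔ 3 := by
    constructor
    · rintro ⟨k1, k2⟩
      exact ⟨fun i => (h1 i).1 (k1 i), ((h2 k1).out 0 2).1 k2⟩
    · rintro ⟨k1, k2⟩
      have k3 := fun i => (h1 i).2 (k1 i)
      exact ⟨k3, ((h2 k3).out 0 2).2 k2⟩
  tfae_finish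

end Pool.Agent.Q5.LI
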