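import Pool.Agent.TH270.MS.QSys
import Pool.Agent.Q5.VA.Dat
import Pool.Agent.Q5.BP.Pack
import Pool.Agent.Q5.AP.Bridge
import Pool.Agent.Q5.DC.Mot
import Pool.Agent.Q5.LI.MainB

/-!
# Euler products over `ℚ` with local roots in the unit disc and centre `1/2`
-/

set_option autoImplicit false

open MeasureTheory Filter Topology Set Complex

namespace Pool.Agent.Q5.LI

open Pool.Agent.TH942.ES (Sys zv xv cv cP LE)
open Pool.Agent.TH270.MS (Pl Mc DvR q_sys BM)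
open Pool.Agent.Q5.MS (Pv Sq bm_dvR)
open Pool.Agent.Q5.BP (MSq FB BSq DvP bm_log bm_dvP)
open Pool.Agent.Q5.AP (Par cut cm par_of_cm M)
open Pool.Agent.Q5.DC (nP two_le lim_shift int_nonneg)

variable {n : ℕ} {α : Nat.Primes → Fin n → ℂ} {F : ℂ → ℂ}

/-- the conditions on the roots -/
structure RootsH (α : Nat.Primes → Fin n → ℂ) : Prop where
  le : ∀ p j, ‖α p j‖ ≤ 1
  real : ∀ p (k : ℕ), (∑ j, α p j ^ k).im = 0

namespace RootsH

variable (R : RootsH α)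
include R

theorem real_z (p : Nat.Primes) (k : ℕ) : (∑ j, zv nP α p j ^ k).im = 0 := by
  have h1 : ∑ j, zv nP α p j ^ k = (∑ j, α p j ^ k) * (((√((nP p : ℕ) : ℝ) ^ k)⁻¹ : ℝ) : ℂ) := by
    rw [Finset.sum_mul]
    refine Finset.sum_congr rfl fun j _ => ?_
    unfold zv
    rw [div_pow, div_eq_mul_inv]
    push_cast
    rfl
  rw [h1, Complex.im_mul_ofReal, R.real, zero_mul]

theorem norm_z (p : Nat.Primes) (j : Fin n) : ‖zv nP α p j‖ < 1 := by
  have hq : (2 : ℝ) ≤ p := two_le p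
  unfold zv
  have h1 : (1 : ℝ) < √((nP p : ℕ) : ℝ) := by
    rw [Real.lt_sqrt zero_le_one]
    have : ((nP p : ℕ) : ℝ) = (p : ℝ) := rfl
    rw [this]
    linarith
  rw [norm_div, Complex.norm_real, Real.norm_of_nonneg (by positivity), div_lt_one (by linarith)]
  exact (R.le p j).trans_lt h1

theorem log_im (p : Nat.Primes) : (∑ j, log (1 - zv nP α p j)).im = 0 := by
  have h1 : HasSum (fun k : ℕ => ∑ j, zv nP α p j ^ k / k)
      (∑ j, -log (1 - zv nP α p j)) :=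
    hasSum_sum fun j _ => hasSum_taylorSeries_neg_log (R.norm_z p j)
  have h2 := hasSum_im h1
  have h3 : ∀ k : ℕ, (∑ j, zv nP α p j ^ k / (k : ℂ)).im = 0 := by
    intro k
    rw [← Finset.sum_div]
    have : (∑ j, zv nP α p j ^ k) / (k : ℂ) =
        (∑ j, zv nP α p j ^ k) * (((k : ℝ)⁻¹ : ℝ) : ℂ) := by
      rw [div_eq_mul_inv]
      push_cast
      rfl
    rw [this, Complex.im_mul_ofReal, R.real_z, zero_mul]
  simp only [h3] at h2
  have h4 := h2.unique hasSum_zero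
  rw [Finset.sum_neg_distrib, Complex.neg_im, neg_eq_zero] at h4
  exact h4

/-- the Euler system -/
theorem sys : Sys nP α := q_sys Nat.Prime (fun _ h => h) α R.le fun p => R.log_im p

end RootsH

/-- the terms of the sum over the prime powers -/
theorem cP_H (z : Nat.Primes × ℕ) : cP nP α z =
    (∑ j, α z.1 j ^ (z.2 + 1)).re / (((z.2 : ℝ) + 1) * √(z.1 : ℝ) ^ (z.2 + 1)) := by
  have hq : (0 : ℝ) < z.1 := by linarith [two_le z.1]
  have h1 : ∑ j, zv nP α z.1 j ^ (z.2 + 1) =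
      (∑ j, α z.1 j ^ (z.2 + 1)) * (((√(z.1 : ℝ) ^ (z.2 + 1))⁻¹ : ℝ) : ℂ) := by
    rw [Finset.sum_mul]
    refine Finset.sum_congr rfl fun j _ => ?_
    unfold zv
    rw [div_pow, div_eq_mul_inv]
    push_cast
    rfl
  have h0 : 0 < √(z.1 : ℝ) := Real.sqrt_pos.2 hq
  unfold cP
  rw [h1, Complex.re_mul_ofReal]
  field_simp

/-- the local factors -/
theorem factorH (p : Nat.Primes) (s : ℂ) :
    ∏ j, (1 - zv nP α p j * xv nP p (s - (((1 / 2 : ℝ)) : ℂ)))⁻¹ =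
      (∏ j, (1 - α p j * (p : ℂ) ^ (-s)))⁻¹ := by
  have hq : (0 : ℝ) < p := by linarith [two_le p]
  have hqc : (p : ℂ) ≠ 0 := by exact_mod_cast hq.ne'
  rw [Finset.prod_inv_distrib]
  congr 1
  refine Finset.prod_congr rfl fun j _ => ?_
  congr 1
  have h1 : xv nP p (s - ((1 / 2 : ℝ) : ℂ)) = (p : ℂ) ^ (-(s - ((1 / 2 : ℝ) : ℂ))) := by
    unfold xv
    have e : ((nP p : ℕ) : ℝ) = (p : ℝ) := rfl
    rw [e, Complex.cpow_def_of_ne_zero hqc, ← Complex.ofReal_natCast, ← Complex.ofReal_log hq.le]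
    congr 1
    ring
  have h2 : ((√((nP p : ℕ) : ℝ) : ℝ) : ℂ)⁻¹ = (p : ℂ) ^ (-((1 / 2 : ℝ) : ℂ)) := by
    have e : ((nP p : ℕ) : ℝ) = (p : ℝ) := rfl
    rw [e, Real.sqrt_eq_rpow, Complex.ofReal_cpow hq.le, Complex.cpow_neg]
    push_cast
    rfl
  unfold zv
  rw [h1, div_eq_mul_inv, h2, mul_assoc, ← Complex.cpow_add _ _ hqc]
  congr 2
  ring

/-- `F` continues the Euler product to a half plane `Re s > 1/2 - η`, holomorphic of polynomial growth -/
structure TempH (α : Nat.Primes → Fin n → ℂ) (F : ℂ → ℂ) : Prop where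
  cont : ∃ (η C : ℝ) (κ : ℕ), 0 < η ∧
    ∀ s : ℂ, 1 / 2 - η < s.re → DifferentiableAt ℂ F s ∧ ‖F s‖ ≤ C * (1 + ‖s‖) ^ κ
  prod : ∀ s : ℂ, 1 < s.re →
    HasProd (fun p : Nat.Primes => (∏ j, (1 - α p j * (p : ℂ) ^ (-s)))⁻¹) (F s)

/-- the data of the theorems -/
theorem mcH (R : RootsH α) (hF : TempH α F) :
    ∃ (G₀ : ℂ → ℂ) (k κ : ℕ) (η C : ℝ),
      Mc nP α (fun s => F (((1 / 2 : ℝ) : ℂ) + s)) G₀ k κ η C := by
  refine Q5.VA.temp_data (c := (1 / 2 : ℝ)) R.sys R.real_z ⟨?_, fun s hs => ?_⟩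
  · obtain ⟨η, C, κ, hη, h⟩ := hF.cont
    exact ⟨η, C, 0, κ, F, hη, h, fun s _ _ => by rw [pow_zero, one_mul]⟩
  · exact (hF.prod s (by linarith)).congr_fun fun p => factorH p s

/-! ### the products and the error terms -/

/-- `P*(x) = exp (- ∑_{p^k ≤ x} (∑_j α_{p,j}^k)/(k p^{k/2}))` -/
noncomputable def pStarH (α : Nat.Primes → Fin n → ℂ) (x : ℝ) : ℝ :=
  Real.exp (-∑ᶠ (z : Nat.Primes × ℕ) (_ : (z.1 : ℝ) ^ (z.2 + 1) ≤ x),
    (∑ j, α z.1 j ^ (z.2 + 1)).re / (((z.2 : ℝ) + 1) * √(z.1 : ℝ) ^ (z.2 + 1)))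

/-- `log (A P*(x) / (e^γ log x)^ρ)` -/
noncomputable def dStarH (α : Nat.Primes → Fin n → ℂ) (ρ A x : ℝ) : ℝ :=
  Real.log (A * pStarH α x / (Real.exp Real.eulerMascheroniConstant * Real.log x) ^ ρ)

theorem log_starH (x : ℝ) : Real.log (pStarH α x) = -Pl nP α x := by
  unfold pStarH Pl
  rw [Real.log_exp]
  congr 1
  refine finsum_congr fun z => finsum_congr fun _ => ?_
  rw [cP_H]

theorem dStarH_eq {ρ A x : ℝ} (hA : 0 < A) (hx : Real.exp 1 ≤ x) :
    dStarH α ρ A x = -DvR nP α ρ A x := by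
  have hl : 0 < Real.log x := by linarith [Pool.Agent.TH270.MS.one_le_log hx]
  have h1 : 0 < Real.exp Real.eulerMascheroniConstant * Real.log x :=
    mul_pos (Real.exp_pos _) hl
  have h2 := Real.rpow_pos_of_pos h1 ρ
  have h3 : 0 < pStarH α x := Real.exp_pos _
  unfold dStarH
  rw [Real.log_div (mul_pos hA h3).ne' h2.ne', Real.log_mul hA.ne'
    h3.ne', log_starH, Real.log_rpow h1, Real.log_mul (Real.exp_pos _).ne' hl.ne',
    Real.log_exp]
  unfold DvR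
  ring

/-- no zeros to the right of the centre -/
def RHH (F : ℂ → ℂ) : Prop := ∀ s : ℂ, 1 / 2 < s.re → F s ≠ 0

/-- `ρ` is the order at the centre, and `F(s)/(s - 1/2)^ρ → A` -/
def LeadH (F : ℂ → ℂ) (ρ A : ℝ) : Prop :=
  ∃ r : ℕ, ρ = r ∧ Tendsto (fun s : ℂ => F s / (s - 1 / 2) ^ r) (𝓝[≠] (1 / 2 : ℂ)) (𝓝 (A : ℂ))

/-- the order of vanishing at `1/2 + it` -/
noncomputable def multH (F : ℂ → ℂ) (t : ℝ) : ℕ := (analyticOrderAt F (1 / 2 + t * I)).toNat

theorem TempH.ana (hF : TempH α F) {s : ℂ} (hs : 1 / 2 ≤ s.re) : AnalyticAt ℂ F s := by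
  obtain ⟨η, C, κ, hη, h⟩ := hF.cont
  have hU : IsOpen {s : ℂ | 1 / 2 - η < s.re} := isOpen_lt continuous_const Complex.continuous_re
  exact (DifferentiableOn.analyticOnNhd (fun z hz => (h z hz).1.differentiableWithinAt) hU) s
    (show 1 / 2 - η < s.re by linarith)

theorem hmc : (((1 / 2 : ℝ)) : ℂ) = (1 / 2 : ℂ) := by push_cast; rfl

theorem leadH_iff (hF : TempH α F) (ρ : ℝ) {A : ℝ} (hA : 0 < A) : RHH F ∧ LeadH F ρ A ↔
    ((∀ s : ℂ, 0 < s.re → F (((1 / 2 : ℝ) : ℂ) + s) ≠ 0) ∧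
      ∃ e : ℤ, ρ = e ∧ Tendsto (fun s => F (((1 / 2 : ℝ) : ℂ) + s) / s ^ e) (𝓝[≠] 0) (𝓝 (A : ℂ))) := by
  rw [Q5.VA.zeros_shiftC]
  simp only [lim_shift]
  rw [hmc]
  refine and_congr_right fun _ => ?_
  unfold LeadH
  constructor
  · rintro ⟨r, h1, h2⟩
    refine ⟨(r : ℤ), by rw [h1]; push_cast; rfl, ?_⟩
    simpa only [zpow_natCast] using h2
  · rintro ⟨e, h1, h2⟩
    have he : 0 ≤ e := int_nonneg (hF.ana (s := (1 / 2 : ℂ)) (by norm_num)) (by exact_mod_cast hA.ne') h2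
    obtain ⟨r, rfl⟩ := Int.eq_ofNat_of_zero_le he
    refine ⟨r, by rw [h1]; push_cast; rfl, ?_⟩
    simpa only [zpow_natCast] using h2

theorem mu_H (F : ℂ → ℂ) (t : ℝ) :
    Pool.Agent.Q5.BP.mu (fun s => F (((1 / 2 : ℝ) : ℂ) + s)) t = multH F t := by
  rw [Pool.Agent.Q5.BP.mu_shift F ((1 / 2 : ℝ) : ℂ) t, hmc]
  rfl

/-- everything about the error term -/
theorem errH (R : RootsH α) (hF : TempH α F) {ρ A : ℝ} (hA : 0 < A) :
    BM (fun x => Real.log x * dStarH α ρ A x) ∧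
    List.TFAE [RHH F ∧ LeadH F ρ A, BSq (dStarH α ρ A),
      ∃ V : ℝ, HasSum (fun t : ℝ => ((multH F t : ℝ) / t) ^ 2) V ∧ Tendsto (MSq (dStarH α ρ A)) atTop (𝓝 V)] ∧
    (RHH F ∧ LeadH F ρ A → ∀ t : ℝ,
      Tendsto (FB (dStarH α ρ A) t) atTop (𝓝 (-((multH F t : ℂ) * I / t)))) ∧
    (RHH F ∧ LeadH F ρ A → ∃ V : ℝ, HasSum (fun t : ℝ => ((multH F t : ℝ) / t) ^ 2) V ∧
      Par (fun u => (cut (fun x => Real.log x * dStarH α ρ A x) u : ℂ)) (cm (multH F)) V) := by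
  obtain ⟨G₀, k, κ, η, C, H⟩ := mcH R hF
  obtain ⟨t, r⟩ := Pool.Agent.Q5.BP.pack H ρ hA (leadH_iff hF ρ hA) (mu_H F)
    (f := dStarH α ρ A) fun y hy => dStarH_eq hA hy
  have hW : BM fun x => Real.log x * dStarH α ρ A x := by
    have h1 : BM fun x => Real.log x * ((-1) * DvR nP α ρ A x) :=
      bm_log.mul ((BM.const (-1)).mul (bm_dvR H ρ A))
    refine Pool.Agent.Q5.OM.bm_congr h1 fun y hy => ?_
    rw [dStarH_eq hA hy, neg_one_mul]
  exact ⟨hW, t, r, fun h => par_of_cm hW ((t.out 0 2).1 h) (r h)⟩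

/-- under the Riemann hypothesis the leading coefficient exists and is positive -/
theorem lead_existsH (R : RootsH α) (hF : TempH α F) (h : RHH F) :
    ∃ (r : ℕ) (A : ℝ), 0 < A ∧
      Tendsto (fun s : ℂ => F s / (s - 1 / 2) ^ r) (𝓝[≠] (1 / 2 : ℂ)) (𝓝 (A : ℂ)) := by
  obtain ⟨G₀, k, κ, η, C, H⟩ := mcH R hF
  obtain ⟨e, g, p, he, Q⟩ := H.cn
  have hz : ∀ s : ℂ, 0 < s.re → F (((1 / 2 : ℝ) : ℂ) + s) ≠ 0 := (Q5.VA.zeros_shiftC F (1 / 2 : ℝ)).2 h
  have hord := (Pool.Agent.TH270.MS.mero_of Q.hg Q.hg0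
    (Pool.Agent.TH270.MS.local_form H.hη H.hΨ Q.near)).2
  have t1 := Pool.Agent.Q5.MS.order_real H (((p : ℤ) - k : ℤ) : ℝ)
  have e1 := t1.out 0 1
  obtain ⟨A, hA, h1⟩ := e1.1 ⟨hz, (p : ℤ) - k, rfl, hord⟩
  have t2 := Pool.Agent.Q5.MS.lead_real H (((p : ℤ) - k : ℤ) : ℝ) hA
  have e2 := t2.out 1 0
  have h2 := e2.1 h1
  obtain ⟨-, r, hr, h3⟩ := (leadH_iff hF _ hA).2 h2
  exact ⟨r, A, hA, h3⟩

/-! ### the random model for the error term -/

/-- **The random model** for `E(x)`: for all shifts `h_j ≥ 0` and real weights `ξ_j` the mean of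
`exp (i ∑ ξ_j E(x e^{h_j}))` with respect to `dx/x` is the (unconditionally convergent) product over `t > 0` of
`J₀(2 |∑ ξ_j e^{i t h_j}|/t)` with the exponents `m t`. -/
def RandomModel (m : ℝ → ℕ) (E : ℝ → ℝ) : Prop :=
  ∀ (k : ℕ) (h ξ : Fin k → ℝ), (∀ j, 0 ≤ h j) →
    ∃ L : ℂ, HasProd (fun t : ℝ => ((fac m (kf h ξ t) t : ℝ) : ℂ)) L ∧
      Tendsto (fun X : ℝ => (∫ x in Real.exp 1..X,
        exp (((∑ j, ξ j * E (x * Real.exp (h j)) : ℝ) : ℂ) * I) / x) / Real.log X) atTop (𝓝 L)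

theorem model_iff {m : ℝ → ℕ} {W : ℝ → ℝ} (hW : BM W) : RandomModel m W ↔ Model m (cut W) := by
  unfold RandomModel Model
  refine forall_congr' fun k => forall_congr' fun h => forall_congr' fun ξ => forall_congr' fun hh => ?_
  refine exists_congr fun L => and_congr_right fun _ => ?_
  have hL2 : Pool.Agent.Q5.AP.L2 fun u => ((∑ j, ξ j * cut W (u + h j) : ℝ) : ℂ) := by
    have h1 : ∀ s : Finset (Fin k), Pool.Agent.Q5.AP.L2 fun u => ((∑ j ∈ s, ξ j * cut W (u + h j) : ℝ) : ℂ) := by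
      intro s
      classical
      induction s using Finset.induction_on with
      | empty =>
        simp only [Finset.sum_empty]
        exact Pool.Agent.Q5.AP.l2_cont continuous_const
      | insert i s hi ih =>
        have h2 := ((L2.shift (Pool.Agent.Q5.AP.cut_l2 hW) (hh i)).const_mul (ξ i : ℂ)).add ih
        simp only [Finset.sum_insert hi]
        convert! h2 using 1
        funext u
        push_cast
        rfl
    exact h1 Finset.univ
  have hint : ∀ T : ℝ, 0 < T → IntervalIntegrable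
      (fun u => exp (((∑ j, ξ j * cut W (u + h j) : ℝ) : ℂ) * I)) volume 0 T :=
    fun T hT => Pool.Agent.Q5.AP.exp_int (g := fun u => ∑ j, ξ j * cut W (u + h j)) hL2 hT
  unfold M
  rw [Pool.Agent.Q5.BP.mean_from_one hint]
  have key : ∀ T : ℝ, 1 ≤ T → (∫ u in (1 : ℝ)..T, exp (((∑ j, ξ j * cut W (u + h j) : ℝ) : ℂ) * I)) =
      ∫ x in Real.exp 1..Real.exp T, exp (((∑ j, ξ j * W (x * Real.exp (h j)) : ℝ) : ℂ) * I) / x := by
    intro T hT
    have e1 := Pool.Agent.Q5.BP.cov_iiC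
      (fun u => exp (((∑ j, ξ j * W (Real.exp u * Real.exp (h j)) : ℝ) : ℂ) * I)) hT
    have e2 : (∫ u in (1 : ℝ)..T, exp (((∑ j, ξ j * cut W (u + h j) : ℝ) : ℂ) * I)) =
        ∫ u in (1 : ℝ)..T, exp (((∑ j, ξ j * W (Real.exp u * Real.exp (h j)) : ℝ) : ℂ) * I) := by
      refine intervalIntegral.integral_congr_ae (Eventually.of_forall fun u hu => ?_)
      rw [uIoc_of_le hT] at hu
      have e3 : ∀ j, cut W (u + h j) = W (Real.exp u * Real.exp (h j)) := by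
        intro j
        rw [Pool.Agent.Q5.AP.cut_of W (by linarith [hu.1, hh j]), Real.exp_add]
      simp only [e3]
    rw [e2, ← e1]
    refine intervalIntegral.integral_congr fun y hy => ?_
    rw [uIcc_of_le (Real.exp_le_exp.2 hT)] at hy
    rw [Real.exp_log ((Real.exp_pos 1).trans_le hy.1)]
  constructor
  · intro h1
    have h2 := h1.comp Real.tendsto_exp_atTop
    refine h2.congr' ?_
    filter_upwards [eventually_ge_atTop 1] with T hT
    rw [Function.comp_apply, key T hT, Real.log_exp]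
  · intro h1
    have h2 := h1.comp Real.tendsto_log_atTop
    refine h2.congr' ?_
    filter_upwards [eventually_ge_atTop (Real.exp 1)] with X hX
    have hl : 1 ≤ Real.log X := Pool.Agent.TH270.MS.one_le_log hX
    rw [Function.comp_apply, key _ hl, Real.exp_log ((Real.exp_pos 1).trans_le hX)]

/-- the multiplicities of a real function are even -/
theorem even_of_par {m : ℝ → ℕ} {f : ℝ → ℝ} {V : ℝ} (P : Par (fun u => (f u : ℂ)) (cm m) V) (t : ℝ) :
    m (-t) = m t := by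
  by_cases ht : t = 0
  · rw [ht, neg_zero]
  have h1 : Tendsto (M fun u => (f u : ℂ) * exp (-(((-t : ℝ) : ℂ) * I * u))) atTop
      (𝓝 ((starRingEnd ℂ) (cm m t))) := by
    have h2 := (Complex.continuous_conj.tendsto _).comp (P.co t)
    refine h2.congr fun T => ?_
    rw [Function.comp_apply, ← Pool.Agent.Q5.AP.M_conj]
    congr 1
    funext u
    rw [map_mul, Complex.conj_ofReal, ← Complex.exp_conj]
    congr 2
    simp
  have h2 := tendsto_nhds_unique (P.co (-t)) h1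
  unfold cm at h2
  have htc : (t : ℂ) ≠ 0 := by exact_mod_cast ht
  simp only [map_neg, map_div₀, map_mul, Complex.conj_I, Complex.conj_ofReal, map_natCast,
    Complex.ofReal_neg] at h2
  have h3 : (m (-t) : ℂ) * I / t = (m t : ℂ) * I / t := by
    have e1 : -((m (-t) : ℂ) * I / -(t : ℂ)) = (m (-t) : ℂ) * I / t := by
      rw [div_neg, neg_neg]
    have e2 : -((m t : ℂ) * -I / (t : ℂ)) = (m t : ℂ) * I / t := by
      rw [mul_neg, neg_div, neg_neg]
    rw [← e1, ← e2]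
    exact h2
  have h4 : (m (-t) : ℂ) * I = (m t : ℂ) * I := by
    field_simp at h3
    rw [h3]
  have h5 := mul_right_cancel₀ I_ne_zero h4
  exact_mod_cast h5

/-- **Linear independence and the random model.** -/
theorem li_iff {m : ℝ → ℕ} {W : ℝ → ℝ} {V : ℝ} (hW : BM W)
    (P : Par (fun u => (cut W u : ℂ)) (cm m) V) : LinInd m ↔ RandomModel m W := by
  have hm := even_of_par P
  rw [model_iff hW]
  exact ⟨fun h => model_of_li P hm h, fun h => li_of_model P hm h⟩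

/-- **The criterion** for one Euler product. -/
theorem li_tfae (R : RootsH α) (hF : TempH α F) {ρ A : ℝ} (hA : 0 < A) :
    (RHH F ∧ LeadH F ρ A) ∧ LinInd (multH F) ↔
      BSq (dStarH α ρ A) ∧ RandomModel (multH F) fun x => Real.log x * dStarH α ρ A x := by
  obtain ⟨hW, t, -, p⟩ := errH R hF (ρ := ρ) hA
  have h1 := t.out 0 1
  constructor
  · rintro ⟨h2, h3⟩
    obtain ⟨V, -, P⟩ := p h2
    exact ⟨h1.1 h2, (li_iff hW P).1 h3⟩
  · rintro ⟨h2, h3⟩
    have h4 := h1.2 h2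
    obtain ⟨V, -, P⟩ := p h4
    exact ⟨h4, (li_iff hW P).2 h3⟩

/-- the criterion without the constants -/
theorem li_exists (R : RootsH α) (hF : TempH α F) :
    RHH F ∧ LinInd (multH F) ↔ ∃ ρ A : ℝ, 0 < A ∧
      BSq (dStarH α ρ A) ∧ RandomModel (multH F) fun x => Real.log x * dStarH α ρ A x := by
  constructor
  · rintro ⟨h1, h2⟩
    obtain ⟨r, A, hA, h3⟩ := lead_existsH R hF h1
    exact ⟨(r : ℝ), A, hA, (li_tfae R hF hA).1 ⟨⟨h1, r, rfl, h3⟩, h2⟩⟩
  · rintro ⟨ρ, A, hA, h⟩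
    have h1 := (li_tfae R hF hA).2 h
    exact ⟨h1.1.1, h1.2⟩

end Pool.Agent.Q5.LI
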