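import Pool.Agent.Q5.LI.Half

/-!
# The joint random model of several error terms
-/

set_option autoImplicit false

open Filter Topology Set Complex MeasureTheory
open Pool.Agent.Q5.AP

namespace Pool.Agent.Q5.LI

/-- the general form of the random model under linear independence -/
theorem prod_of_li {G : ℝ → ℝ} {b : ℝ → ℂ} {U : ℝ} {m : ℝ → ℕ} (hU : Par (fun u => (G u : ℂ)) b U)
    (hbc : ∀ t, (starRingEnd ℂ) (b (-t)) = b t) (hm : ∀ t, m (-t) = m t) (hb0 : ∀ t, m t = 0 → b t = 0)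
    (hb00 : b 0 = 0) (hli : LinInd m) {Φ : ℝ → ℝ} (hΦ : ∀ t, 0 < t → m t ≠ 0 → Φ t = bz (b t))
    (hΦ1 : ∀ t, ¬ (0 < t ∧ m t ≠ 0) → Φ t = 1) :
    ∃ z : ℂ, HasProd (fun t : ℝ => ((Φ t : ℝ) : ℂ)) z ∧
      Tendsto (M fun u => exp ((G u : ℂ) * I)) atTop (𝓝 z) := by
  classical
  obtain ⟨z, hz⟩ := Par.exp_mean (g := G) hU
  refine ⟨z, ?_, hz⟩
  rw [HasProd, Metric.tendsto_nhds]
  intro ε hε
  have hev : ∀ᶠ S₁ : Finset ℝ in atTop, dist (∑ t ∈ S₁, ‖b t‖ ^ 2) U < ε ^ 2 :=
    (Metric.tendsto_nhds.1 hU.pa) (ε ^ 2) (by positivity)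
  obtain ⟨S₁, hS₁⟩ := hev.exists
  rw [Real.dist_eq, abs_lt] at hS₁
  filter_upwards [eventually_ge_atTop (S₁.image fun t => |t|)] with S hS
  rw [dist_comm, dist_eq_norm]
  set Sp : Finset ℝ := S.filter fun t => 0 < t ∧ m t ≠ 0 with hSp
  have hSpos : ∀ t ∈ Sp, 0 < t ∧ m t ≠ 0 := fun t ht => (Finset.mem_filter.1 ht).2
  have hkw := kw_of_li (γ := fun j : Sp => (j : ℝ)) (fun n hn => li_sub hli Sp hSpos n hn)
    (fun j : Sp => b j)
  have hprod : ∏ t ∈ S, ((Φ t : ℝ) : ℂ) = ((∏ j : Sp, bz (b j) : ℝ) : ℂ) := by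
    rw [← Complex.ofReal_prod]
    congr 1
    rw [Finset.prod_coe_sort Sp fun x => bz (b x), hSp, Finset.prod_filter]
    refine Finset.prod_congr rfl fun t _ => ?_
    by_cases h : 0 < t ∧ m t ≠ 0
    · rw [if_pos h, hΦ t h.1 h.2]
    · rw [if_neg h, hΦ1 t h]
  rw [hprod]
  obtain ⟨U', hU'⟩ := par_tpoly (fun j : Sp => (j : ℝ)) (fun j : Sp => b j)
  have hD0 := hU.add (hU'.const_mul (-1))
  set W : ℝ := U + ‖(-1 : ℂ)‖ ^ 2 * U' + 2 * (∑' t, b t * (starRingEnd ℂ)
    (-1 * tco (fun j : Sp => (j : ℝ)) (fun j : Sp => b j) t)).re with hW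
  have hD : Par (fun u => (G u : ℂ) - (tpoly (fun j : Sp => (j : ℝ)) (fun j : Sp => b j) u : ℂ))
      (fun t => b t + -1 * tco (fun j : Sp => (j : ℝ)) (fun j : Sp => b j) t) W := by
    convert! hD0 using 1
    funext u
    ring
  have hlip := exp_lip (G := G) (P := tpoly (fun j : Sp => (j : ℝ)) (fun j : Sp => b j)) hU.loc
    hU'.loc hD hz hkw
  refine hlip.trans_lt ?_
  have hW2 : W + ∑ t ∈ S₁, ‖b t‖ ^ 2 ≤ U := by
    have h1 : HasSum (fun t => if t ∈ S₁ then ‖b t‖ ^ 2 else 0) (∑ t ∈ S₁, ‖b t‖ ^ 2) := by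
      have h0 : HasSum (fun t => if t ∈ S₁ then ‖b t‖ ^ 2 else 0)
          (∑ t ∈ S₁, if t ∈ S₁ then ‖b t‖ ^ 2 else 0) :=
        hasSum_sum_of_ne_finset_zero fun t ht => by rw [if_neg ht]
      convert! h0 using 1
      refine Finset.sum_congr rfl fun t ht => ?_
      rw [if_pos ht]
    refine hasSum_le (fun t => ?_) (hD.pa.add h1) hU.pa
    rw [tco_eq]
    by_cases h1 : t ∈ Sp
    · have h2 : -t ∉ Sp := fun h' => by linarith [(hSpos _ h').1, (hSpos _ h1).1]
      rw [if_pos h1, if_neg h2]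
      have e : b t + -1 * (b t + 0) = 0 := by ring
      rw [e, norm_zero]
      split_ifs
      · simp
      · simp
    · by_cases h2 : -t ∈ Sp
      · rw [if_neg h1, if_pos h2, hbc]
        have e : b t + -1 * (0 + b t) = 0 := by ring
        rw [e, norm_zero]
        split_ifs
        · simp
        · simp
      · rw [if_neg h1, if_neg h2, add_zero, mul_zero, add_zero]
        split_ifs with h3
        · have h4 : |t| ∈ S := hS (Finset.mem_image_of_mem _ h3)
          have h5 : b t = 0 := by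
            by_contra hne
            have ht0 : t ≠ 0 := fun h' => hne (by rw [h', hb00])
            have hmt : m t ≠ 0 := fun h' => hne (hb0 t h')
            rcases lt_or_gt_of_ne ht0 with h6 | h6
            · refine h2 (Finset.mem_filter.2 ⟨?_, by linarith, by rwa [hm]⟩)
              rwa [abs_of_neg h6] at h4
            · refine h1 (Finset.mem_filter.2 ⟨?_, h6, hmt⟩)
              rwa [abs_of_pos h6] at h4
          rw [h5]
          simp
        · simp
  have h1 : W < ε ^ 2 := by linarith [hS₁.1]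
  have h2 := hD.nonneg
  calc √W < √(ε ^ 2) := Real.sqrt_lt_sqrt h2 h1
    _ = ε := Real.sqrt_sq hε.le

variable {ι : Type} [Fintype ι] {f : ι → ℝ → ℝ} {m : ι → ℝ → ℕ} {V : ι → ℝ}

/-- the total multiplicity -/
def tot (m : ι → ℝ → ℕ) (t : ℝ) : ℕ := ∑ i, m i t

/-- the joint random model -/
def JModel (m : ι → ℝ → ℕ) (f : ι → ℝ → ℝ) : Prop :=
  ∀ (k : ℕ) (h : Fin k → ℝ) (ξ : ι → Fin k → ℝ), (∀ j, 0 ≤ h j) →
    ∃ L : ℂ, HasProd (fun t : ℝ => ((∏ i, fac (m i) (kf h (ξ i) t) t : ℝ) : ℂ)) L ∧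
      Tendsto (M fun u => exp (((∑ i, ∑ j, ξ i j * f i (u + h j) : ℝ) : ℂ) * I)) atTop (𝓝 L)

theorem cm_tot (m : ι → ℝ → ℕ) (t : ℝ) : cm (tot m) t = ∑ i, cm (m i) t := by
  unfold cm tot
  push_cast
  rw [Finset.sum_neg_distrib, ← Finset.sum_div, ← Finset.sum_mul]

/-- the sum of the functions -/
theorem par_tot (P : ∀ i, Par (fun u => (f i u : ℂ)) (cm (m i)) (V i)) :
    ∃ U : ℝ, Par (fun u => ((∑ i, f i u : ℝ) : ℂ)) (cm (tot m)) U := by
  obtain ⟨U, hU⟩ := par_sum Finset.univ fun i _ => P i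
  refine ⟨U, ?_⟩
  convert! hU using 1
  · funext u
    push_cast
    rfl
  · funext t
    exact cm_tot m t

theorem jmodel_of_li (P : ∀ i, Par (fun u => (f i u : ℂ)) (cm (m i)) (V i)) (hli : LinInd (tot m)) :
    JModel m f := by
  classical
  intro k h ξ hh
  have hm : ∀ i t, m i (-t) = m i t := fun i => even_of_par (P i)
  have h1 : ∀ i ∈ (Finset.univ : Finset ι), Par (fun u => ((∑ j, ξ i j * f i (u + h j) : ℝ) : ℂ))
      (fun t => cm (m i) t * kf h (ξ i) t) (Classical.choose (comb (P i) h (ξ i) hh)) :=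
    fun i _ => Classical.choose_spec (comb (P i) h (ξ i) hh)
  obtain ⟨U, hU⟩ := par_sum Finset.univ h1
  have hU' : Par (fun u => (((∑ i, ∑ j, ξ i j * f i (u + h j)) : ℝ) : ℂ))
      (fun t => ∑ i, cm (m i) t * kf h (ξ i) t) U := by
    convert! hU using 1
    funext u
    rw [Complex.ofReal_sum]
  refine prod_of_li (m := tot m) hU' (fun t => ?_) (fun t => ?_) (fun t ht => ?_) ?_ hli (fun t ht hmt => ?_)
    fun t ht => ?_
  · rw [map_sum]
    refine Finset.sum_congr rfl fun i _ => ?_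
    rw [map_mul, cm_conj (hm i), kf_conj]
  · unfold tot
    exact Finset.sum_congr rfl fun i _ => hm i t
  · refine Finset.sum_eq_zero fun i _ => ?_
    have h2 : m i t = 0 := (Finset.sum_eq_zero_iff.1 ht) i (Finset.mem_univ i)
    unfold cm
    rw [h2]
    simp
  · refine Finset.sum_eq_zero fun i _ => ?_
    rw [cm_zero, zero_mul]
  · have h2 : tot m t = 1 := by
      have := hli.1 t ht
      omega
    obtain ⟨i, -, hi⟩ : ∃ i ∈ (Finset.univ : Finset ι), m i t ≠ 0 := by
      by_contra hno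
      push Not at hno
      exact hmt (Finset.sum_eq_zero hno)
    have h3 : m i t + ∑ j ∈ Finset.univ.erase i, m j t = 1 := by
      rw [Finset.add_sum_erase Finset.univ (fun j => m j t) (Finset.mem_univ i)]
      exact h2
    have h4 : m i t = 1 := by omega
    have h5 : ∀ j, j ≠ i → m j t = 0 := by
      intro j hj
      have h6 : ∑ j ∈ Finset.univ.erase i, m j t = 0 := by omega
      exact (Finset.sum_eq_zero_iff.1 h6) j (Finset.mem_erase.2 ⟨hj, Finset.mem_univ j⟩)
    rw [Finset.prod_eq_single i, Finset.sum_eq_single i]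
    · unfold fac
      rw [if_pos ht, h4, pow_one]
      refine bz_norm ?_
      rw [norm_mul, norm_cm, h4, norm_div, Complex.norm_real, Real.norm_eq_abs, Nat.cast_one]
      ring
    · intro j _ hj
      unfold cm
      rw [h5 j hj]
      simp
    · exact fun h' => absurd (Finset.mem_univ i) h'
    · intro j _ hj
      unfold fac
      rw [if_pos ht, h5 j hj, pow_zero]
    · exact fun h' => absurd (Finset.mem_univ i) h'
  · refine Finset.prod_eq_one fun i _ => ?_
    unfold fac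
    split_ifs with h0
    · have h2 : tot m t = 0 := by
        by_contra h3
        exact ht ⟨h0, h3⟩
      have h3 : m i t = 0 := (Finset.sum_eq_zero_iff.1 h2) i (Finset.mem_univ i)
      rw [h3, pow_zero]
    · rfl

/-- the joint model gives the model of the sum -/
theorem model_of_jmodel (h : JModel m f) : Model (tot m) fun u => ∑ i, f i u := by
  intro k h' ξ hh
  obtain ⟨L, h1, h2⟩ := h k h' (fun _ => ξ) hh
  refine ⟨L, ?_, ?_⟩
  · convert! h1 using 1
    funext t
    congr 1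
    unfold fac tot
    split_ifs
    · rw [Finset.prod_pow_eq_pow_sum]
    · simp
  · convert! h2 using 1
    funext T
    congr 1
    funext u
    congr 3
    rw [Finset.sum_comm]
    refine Finset.sum_congr rfl fun j _ => ?_
    rw [Finset.mul_sum]

/-- **the three forms are equivalent** -/
theorem joint_li (P : ∀ i, Par (fun u => (f i u : ℂ)) (cm (m i)) (V i)) :
    List.TFAE [LinInd (tot m), JModel m f, Model (tot m) fun u => ∑ i, f i u] := by
  tfae_have 1 → 2 := jmodel_of_li P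
  tfae_have 2 → 3 := model_of_jmodel
  tfae_have 3 → 1 := by
    intro h
    obtain ⟨U, hU⟩ := par_tot P
    exact li_of_model hU (even_of_par hU) h
  tfae_finish

/-! ### the means with respect to `dx/x` -/

/-- **The joint random model** for the `E_i(x)`. -/
def JointRandomModel (m : ι → ℝ → ℕ) (E : ι → ℝ → ℝ) : Prop :=
  ∀ (k : ℕ) (h : Fin k → ℝ) (ξ : ι → Fin k → ℝ), (∀ j, 0 ≤ h j) →
    ∃ L : ℂ, HasProd (fun t : ℝ => ((∏ i, fac (m i) (kf h (ξ i) t) t : ℝ) : ℂ)) L ∧
      Tendsto (fun X : ℝ => (∫ x in Real.exp 1..X,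
        exp (((∑ i, ∑ j, ξ i j * E i (x * Real.exp (h j)) : ℝ) : ℂ) * I) / x) / Real.log X) atTop (𝓝 L)

/-- change of variables -/
theorem means_iff {g : ℝ → ℝ} {H : ℝ → ℝ} (hg : Pool.Agent.Q5.AP.L2 fun u => (g u : ℂ))
    (hgH : ∀ u, 1 < u → g u = H (Real.exp u)) {L : ℂ} :
    Tendsto (fun X : ℝ => (∫ x in Real.exp 1..X, exp ((H x : ℂ) * I) / x) / Real.log X) atTop (𝓝 L) ↔
      Tendsto (M fun u => exp ((g u : ℂ) * I)) atTop (𝓝 L) := by
  have hint : ∀ T : ℝ, 0 < T → IntervalIntegrable (fun u => exp ((g u : ℂ) * I)) volume 0 T :=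
    fun T hT => Pool.Agent.Q5.AP.exp_int (g := g) hg hT
  unfold M
  rw [Pool.Agent.Q5.BP.mean_from_one hint]
  have key : ∀ T : ℝ, 1 ≤ T → (∫ u in (1 : ℝ)..T, exp ((g u : ℂ) * I)) =
      ∫ x in Real.exp 1..Real.exp T, exp ((H x : ℂ) * I) / x := by
    intro T hT
    have e1 := Pool.Agent.Q5.BP.cov_iiC (fun u => exp ((H (Real.exp u) : ℂ) * I)) hT
    have e2 : (∫ u in (1 : ℝ)..T, exp ((g u : ℂ) * I)) =
        ∫ u in (1 : ℝ)..T, exp ((H (Real.exp u) : ℂ) * I) := by
      refine intervalIntegral.integral_congr_ae (Eventually.of_forall fun u hu => ?_)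
      rw [uIoc_of_le hT] at hu
      rw [hgH u hu.1]
    rw [e2, ← e1]
    refine intervalIntegral.integral_congr fun y hy => ?_
    rw [uIcc_of_le (Real.exp_le_exp.2 hT)] at hy
    rw [Real.exp_log ((Real.exp_pos 1).trans_le hy.1)]
  constructor
  · intro h1
    have h2 := h1.comp Real.tendsto_exp_atTop
    refine h2.congr' ?_
    filter_upwards [eventually_ge_atTop 1] with T hT
    rw [Function.comp_apply, key T hT, Real.log_exp]
  · intro h1
    have h2 := h1.comp Real.tendsto_log_atTop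
    refine h2.congr' ?_
    filter_upwards [eventually_ge_atTop (Real.exp 1)] with X hX
    have hl : 1 ≤ Real.log X := Pool.Agent.TH270.MS.one_le_log hX
    rw [Function.comp_apply, key _ hl, Real.exp_log ((Real.exp_pos 1).trans_le hX)]

theorem l2_comb {W : ℝ → ℝ} (hW : Pool.Agent.TH270.MS.BM W) {k : ℕ} (h ξ : Fin k → ℝ) (hh : ∀ j, 0 ≤ h j)
    (s : Finset (Fin k)) : Pool.Agent.Q5.AP.L2 fun u => ((∑ j ∈ s, ξ j * cut W (u + h j) : ℝ) : ℂ) := by
  classical
  induction s using Finset.induction_on with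
  | empty =>
    simp only [Finset.sum_empty]
    exact Pool.Agent.Q5.AP.l2_cont continuous_const
  | insert i s hi ih =>
    have h2 := ((L2.shift (Pool.Agent.Q5.AP.cut_l2 hW) (hh i)).const_mul (ξ i : ℂ)).add ih
    simp only [Finset.sum_insert hi]
    convert! h2 using 1
    funext u
    push_cast
    rfl

theorem l2_comb2 {W : ι → ℝ → ℝ} (hW : ∀ i, Pool.Agent.TH270.MS.BM (W i)) {k : ℕ} (h : Fin k → ℝ)
    (ξ : ι → Fin k → ℝ) (hh : ∀ j, 0 ≤ h j) (s : Finset ι) :
    Pool.Agent.Q5.AP.L2 fun u => ((∑ i ∈ s, ∑ j, ξ i j * cut (W i) (u + h j) : ℝ) : ℂ) := by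
  classical
  induction s using Finset.induction_on with
  | empty =>
    simp only [Finset.sum_empty]
    exact Pool.Agent.Q5.AP.l2_cont continuous_const
  | insert i s hi ih =>
    have h2 := (l2_comb (hW i) h (ξ i) hh Finset.univ).add ih
    simp only [Finset.sum_insert hi]
    convert! h2 using 1
    funext u
    push_cast
    rfl

theorem jmodel_iff {W : ι → ℝ → ℝ} (hW : ∀ i, Pool.Agent.TH270.MS.BM (W i)) :
    JointRandomModel m W ↔ JModel m fun i => cut (W i) := by
  unfold JointRandomModel JModel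
  refine forall_congr' fun k => forall_congr' fun h => forall_congr' fun ξ => forall_congr' fun hh => ?_
  refine exists_congr fun L => and_congr_right fun _ => ?_
  refine means_iff (g := fun u => ∑ i, ∑ j, ξ i j * cut (W i) (u + h j))
    (H := fun x => ∑ i, ∑ j, ξ i j * W i (x * Real.exp (h j))) (l2_comb2 hW h ξ hh Finset.univ) fun u hu => ?_
  refine Finset.sum_congr rfl fun i _ => Finset.sum_congr rfl fun j _ => ?_
  rw [Pool.Agent.Q5.AP.cut_of (W i) (by linarith [hh j]), Real.exp_add]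

theorem sum_model_iff {W : ι → ℝ → ℝ} (hW : ∀ i, Pool.Agent.TH270.MS.BM (W i)) (n : ℝ → ℕ) :
    RandomModel n (fun x => ∑ i, W i x) ↔ Model n fun u => ∑ i, cut (W i) u := by
  unfold RandomModel Model
  refine forall_congr' fun k => forall_congr' fun h => forall_congr' fun ξ => forall_congr' fun hh => ?_
  refine exists_congr fun L => and_congr_right fun _ => ?_
  refine means_iff (g := fun u => ∑ j, ξ j * ∑ i, cut (W i) (u + h j))
    (H := fun x => ∑ j, ξ j * ∑ i, W i (x * Real.exp (h j))) ?_ fun u hu => ?_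
  · have h1 := l2_comb2 hW h (fun _ => ξ) hh Finset.univ
    convert! h1 using 1
    funext u
    congr 1
    rw [Finset.sum_comm]
    refine Finset.sum_congr rfl fun j _ => ?_
    rw [Finset.mul_sum]
  · refine Finset.sum_congr rfl fun j _ => ?_
    congr 1
    refine Finset.sum_congr rfl fun i _ => ?_
    rw [Pool.Agent.Q5.AP.cut_of (W i) (by linarith [hh j]), Real.exp_add]

/-- **Linear independence, the joint model and the model of the sum.** -/
theorem joint_iff {W : ι → ℝ → ℝ} (hW : ∀ i, Pool.Agent.TH270.MS.BM (W i))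
    (P : ∀ i, Par (fun u => (cut (W i) u : ℂ)) (cm (m i)) (V i)) :
    List.TFAE [LinInd (tot m), JointRandomModel m W, RandomModel (tot m) fun x => ∑ i, W i x] := by
  rw [jmodel_iff hW, sum_model_iff hW]
  exact joint_li P

end Pool.Agent.Q5.LI
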