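import Pool.Agent.Q5.LI.Bz

/-!
# Kronecker–Weyl for characteristic functions
-/

set_option autoImplicit false

open Filter Topology Set Complex MeasureTheory
open Pool.Agent.Q5.AP (M TrigP mean_sub_le)

namespace Pool.Agent.Q5.LI

/-- the mean of an exponential -/
theorem mean_exp (c : ℂ) (l : ℝ) :
    Tendsto (M fun u => c * exp (l * I * u)) atTop (𝓝 (if l = 0 then c else 0)) := by
  split_ifs with hl
  · refine tendsto_const_nhds.congr' ?_
    filter_upwards [eventually_gt_atTop 0] with T hT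
    unfold M
    rw [hl]
    have hTc : (T : ℂ) ≠ 0 := by exact_mod_cast hT.ne'
    simp only [Complex.ofReal_zero, zero_mul, Complex.exp_zero, mul_one]
    rw [intervalIntegral.integral_const, sub_zero, Complex.real_smul]
    field_simp
  · have h2 := (Pool.Agent.Q5.BP.exp_mean hl).const_mul c
    rw [mul_zero] at h2
    refine h2.congr fun T => ?_
    unfold M
    rw [intervalIntegral.integral_const_mul, mul_div_assoc]

/-- means of finite sums of continuous functions -/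
theorem mean_sum {ι : Type*} (s : Finset ι) {f : ι → ℝ → ℂ} (hf : ∀ i, Continuous (f i)) {z : ι → ℂ}
    (h : ∀ i, Tendsto (M (f i)) atTop (𝓝 (z i))) :
    Tendsto (M fun u => ∑ i ∈ s, f i u) atTop (𝓝 (∑ i ∈ s, z i)) := by
  refine (tendsto_finsetSum s fun i _ => h i).congr fun T => ?_
  unfold M
  rw [intervalIntegral.integral_finsetSum fun i _ => (hf i).intervalIntegrable _ _, Finset.sum_div]

/-- uniform approximation with convergence of the means -/
theorem mean_unif {f : ℝ → ℂ} (hf : Continuous f) {z : ℂ}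
    (h : ∀ ε : ℝ, 0 < ε → ∃ (p : ℝ → ℂ) (y : ℂ), Continuous p ∧ Tendsto (M p) atTop (𝓝 y) ∧
      ‖y - z‖ ≤ ε ∧ ∀ u, ‖f u - p u‖ ≤ ε) : Tendsto (M f) atTop (𝓝 z) := by
  rw [Metric.tendsto_nhds]
  intro ε hε
  obtain ⟨p, y, hp, hy, hyz, hfp⟩ := h (ε / 4) (by positivity)
  filter_upwards [Metric.tendsto_nhds.1 hy (ε / 4) (by positivity), eventually_gt_atTop 0] with T h1 hT
  have h2 := mean_sub_le hT (hf.intervalIntegrable _ _) (hp.intervalIntegrable _ _) hfp
  rw [dist_eq_norm] at h1 ⊢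
  calc ‖M f T - z‖ = ‖(M f T - M p T) + (M p T - y) + (y - z)‖ := by ring_nf
    _ ≤ ‖M f T - M p T‖ + ‖M p T - y‖ + ‖y - z‖ := norm_add₃_le
    _ < ε := by linarith

/-- products of close factors -/
theorem prod_close {ι : Type*} (s : Finset ι) {a b : ι → ℂ} {R ε : ℝ} (hR : 1 ≤ R) (hε : 0 ≤ ε)
    (ha : ∀ i ∈ s, ‖a i‖ ≤ R) (hb : ∀ i ∈ s, ‖b i‖ ≤ R) (hab : ∀ i ∈ s, ‖a i - b i‖ ≤ ε) :
    ‖∏ i ∈ s, a i - ∏ i ∈ s, b i‖ ≤ s.card * R ^ s.card * ε := by
  classical
  induction s using Finset.induction_on with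
  | empty => simp
  | insert i s hi ih =>
    have h1 := ih (fun j hj => ha j (Finset.mem_insert_of_mem hj))
      (fun j hj => hb j (Finset.mem_insert_of_mem hj)) (fun j hj => hab j (Finset.mem_insert_of_mem hj))
    rw [Finset.prod_insert hi, Finset.prod_insert hi, Finset.card_insert_of_notMem hi]
    have h2 : a i * ∏ j ∈ s, a j - b i * ∏ j ∈ s, b j =
        a i * (∏ j ∈ s, a j - ∏ j ∈ s, b j) + (a i - b i) * ∏ j ∈ s, b j := by ring
    have h3 : ‖∏ j ∈ s, b j‖ ≤ R ^ s.card := by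
      rw [norm_prod]
      calc ∏ j ∈ s, ‖b j‖ ≤ ∏ _j ∈ s, R :=
            Finset.prod_le_prod (fun j _ => norm_nonneg _) fun j hj => hb j (Finset.mem_insert_of_mem hj)
        _ = R ^ s.card := by rw [Finset.prod_const]
    have h4 := ha i (Finset.mem_insert_self i s)
    have h5 := hab i (Finset.mem_insert_self i s)
    have hR0 : 0 ≤ R := by linarith
    rw [h2]
    refine (norm_add_le _ _).trans ?_
    rw [norm_mul, norm_mul]
    have h6 : ‖a i‖ * ‖∏ j ∈ s, a j - ∏ j ∈ s, b j‖ ≤ R * (s.card * R ^ s.card * ε) :=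
      mul_le_mul h4 h1 (norm_nonneg _) hR0
    have h7 : ‖a i - b i‖ * ‖∏ j ∈ s, b j‖ ≤ ε * R ^ s.card := mul_le_mul h5 h3 (norm_nonneg _) hε
    have h8 : ε * R ^ s.card ≤ ε * R ^ (s.card + 1) :=
      mul_le_mul_of_nonneg_left (pow_le_pow_right₀ hR (Nat.le_succ _)) hε
    push_cast
    rw [pow_succ] at h8 ⊢
    nlinarith

/-- the truncated exponential -/
noncomputable def te (N : ℕ) (w : ℂ) : ℂ := ∑ k ∈ Finset.range N, w ^ k / (k.factorial : ℂ)

theorem te_close {B : ℝ} {ε : ℝ} (hε : 0 < ε) : ∃ N₀ : ℕ, ∀ N : ℕ, N₀ ≤ N → ∀ w : ℂ, ‖w‖ ≤ B →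
    ‖exp w - te N w‖ ≤ ε := by
  by_cases hB : 0 ≤ B
  swap
  · exact ⟨0, fun N _ w hw => absurd ((norm_nonneg w).trans hw) hB⟩
  have hs : Summable fun k : ℕ => B ^ k / (k.factorial : ℝ) := Real.summable_pow_div_factorial B
  have ht := (hs.hasSum.tendsto_sum_nat).const_sub (∑' k : ℕ, B ^ k / (k.factorial : ℝ))
  rw [sub_self] at ht
  obtain ⟨N₀, hN₀⟩ := eventually_atTop.1 (ht.eventually (gt_mem_nhds hε))
  refine ⟨N₀, fun n hn w hw => ?_⟩
  have h1 : HasSum (fun k : ℕ => w ^ k / (k.factorial : ℂ)) (exp w) := by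
    rw [Complex.exp_eq_exp_ℂ]
    exact NormedSpace.expSeries_div_hasSum_exp w
  have h2 : exp w - te n w = ∑' k : ℕ, w ^ (k + n) / ((k + n).factorial : ℂ) := by
    unfold te
    rw [← h1.tsum_eq, ← h1.summable.sum_add_tsum_nat_add n, add_sub_cancel_left]
  have h3 : (∑' k : ℕ, B ^ k / (k.factorial : ℝ)) - ∑ k ∈ Finset.range n, B ^ k / (k.factorial : ℝ) =
      ∑' k : ℕ, B ^ (k + n) / ((k + n).factorial : ℝ) := by
    rw [← hs.sum_add_tsum_nat_add n, add_sub_cancel_left]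
  rw [h2]
  have h4 : Summable fun k : ℕ => B ^ (k + n) / ((k + n).factorial : ℝ) :=
    (summable_nat_add_iff n).2 hs
  refine (tsum_of_norm_bounded h4.hasSum fun k => ?_).trans ?_
  · rw [norm_div, norm_pow, Complex.norm_natCast]
    gcongr
  · rw [← h3]
    exact (hN₀ n hn).le

theorem te_bound (N : ℕ) {w : ℂ} {B : ℝ} (hw : ‖w‖ ≤ B) : ‖te N w‖ ≤ Real.exp B := by
  have hB : 0 ≤ B := (norm_nonneg w).trans hw
  unfold te
  refine (norm_sum_le _ _).trans ?_
  refine le_trans ?_ (Real.sum_le_exp_of_nonneg hB N)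
  refine Finset.sum_le_sum fun k _ => ?_
  rw [norm_div, norm_pow, Complex.norm_natCast]
  gcongr

variable {ι : Type*} [Fintype ι]

/-- the trigonometric polynomial `∑ 2 Re (z_j e^{iγ_j u})` -/
noncomputable def tpoly (γ : ι → ℝ) (z : ι → ℂ) (u : ℝ) : ℝ :=
  ∑ j, 2 * (z j * exp (γ j * I * u)).re

theorem tpoly_cont (γ : ι → ℝ) (z : ι → ℂ) : Continuous (tpoly γ z) := by
  unfold tpoly
  fun_prop

/-- the factor -/
noncomputable def ew (γ : ℝ) (z : ℂ) (u : ℝ) : ℂ := I * (z * exp (γ * I * u))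

/-- the conjugate factor -/
noncomputable def ewc (γ : ℝ) (z : ℂ) (u : ℝ) : ℂ := I * ((starRingEnd ℂ) z * exp (-(γ * I * u)))

theorem ew_norm (γ : ℝ) (z : ℂ) (u : ℝ) : ‖ew γ z u‖ = ‖z‖ := by
  unfold ew
  rw [norm_mul, norm_mul, Complex.norm_I, one_mul, Complex.norm_exp]
  simp

theorem ewc_norm (γ : ℝ) (z : ℂ) (u : ℝ) : ‖ewc γ z u‖ = ‖z‖ := by
  unfold ewc
  rw [norm_mul, norm_mul, Complex.norm_I, one_mul, Complex.norm_exp, RCLike.norm_conj]
  simp

theorem exp_tpoly (γ : ι → ℝ) (z : ι → ℂ) (u : ℝ) :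
    exp ((tpoly γ z u : ℂ) * I) = ∏ j, (exp (ew (γ j) (z j) u) * exp (ewc (γ j) (z j) u)) := by
  simp only [← Complex.exp_add]
  rw [← Complex.exp_sum]
  congr 1
  unfold tpoly ew ewc
  push_cast
  rw [Finset.sum_mul]
  refine Finset.sum_congr rfl fun j _ => ?_
  have h1 := Complex.add_conj (z j * exp (γ j * I * u))
  rw [map_mul, ← Complex.exp_conj] at h1
  have h2 : (starRingEnd ℂ) ((γ j : ℂ) * I * u) = -(γ j * I * u) := by simp
  rw [h2] at h1
  push_cast at h1
  rw [← h1]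
  ring

/-- the coefficient of `e^{i(k-l)γu}` in the truncated factor -/
noncomputable def cf (z : ℂ) (p : ℕ × ℕ) : ℂ :=
  (I * z) ^ p.1 * (I * (starRingEnd ℂ) z) ^ p.2 / ((p.1.factorial : ℂ) * (p.2.factorial : ℂ))

theorem te_mul (N : ℕ) (γ : ℝ) (z : ℂ) (u : ℝ) :
    te N (ew γ z u) * te N (ewc γ z u) = ∑ p ∈ Finset.range N ×ˢ Finset.range N,
      cf z p * exp ((((p.1 : ℝ) - p.2) * γ : ℝ) * I * u) := by
  unfold te
  rw [Finset.sum_mul_sum, Finset.sum_product]
  refine Finset.sum_congr rfl fun k _ => Finset.sum_congr rfl fun l _ => ?_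
  have e1 : ew γ z u ^ k = (I * z) ^ k * exp ((k : ℂ) * (γ * I * u)) := by
    unfold ew
    rw [← mul_assoc, mul_pow, ← Complex.exp_nat_mul]
  have e2 : ewc γ z u ^ l = (I * (starRingEnd ℂ) z) ^ l * exp ((l : ℂ) * -(γ * I * u)) := by
    unfold ewc
    rw [← mul_assoc, mul_pow, ← Complex.exp_nat_mul]
  rw [e1, e2]
  unfold cf
  have h1 : exp ((((k : ℝ) - l) * γ : ℝ) * I * u) =
      exp ((k : ℂ) * (γ * I * u)) * exp ((l : ℂ) * -(γ * I * u)) := by
    rw [← Complex.exp_add]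
    congr 1
    push_cast
    ring
  rw [h1]
  ring

theorem cf_diag (z : ℂ) (k : ℕ) : cf z (k, k) = (bt z k : ℂ) := by
  unfold cf bt
  simp only
  rw [← mul_pow]
  have h1 : I * z * (I * (starRingEnd ℂ) z) = ((-(‖z‖ ^ 2) : ℝ) : ℂ) := by
    have h2 : z * (starRingEnd ℂ) z = ((‖z‖ ^ 2 : ℝ) : ℂ) := by
      rw [Complex.mul_conj, Complex.normSq_eq_norm_sq]
    calc I * z * (I * (starRingEnd ℂ) z) = (I * I) * (z * (starRingEnd ℂ) z) := by ring
      _ = _ := by rw [I_mul_I, h2]; push_cast; ring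
  rw [h1]
  push_cast
  ring

/-- the mean of the product of the truncated factors, for integrally independent frequencies -/
theorem mean_trunc {γ : ι → ℝ} (hγ : ∀ n : ι → ℤ, ∑ j, (n j : ℝ) * γ j = 0 → n = 0) (z : ι → ℂ)
    (N : ℕ) : Tendsto (M fun u => ∏ j, (te N (ew (γ j) (z j) u) * te N (ewc (γ j) (z j) u))) atTop
      (𝓝 ((∏ j, bn N (z j) : ℝ) : ℂ)) := by
  classical
  have h1 : (fun u : ℝ => ∏ j, (te N (ew (γ j) (z j) u) * te N (ewc (γ j) (z j) u))) =
      fun u : ℝ => ∑ p ∈ Fintype.piFinset fun _ : ι => Finset.range N ×ˢ Finset.range N,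
        (∏ j, cf (z j) (p j)) *
          exp ((((∑ j, (((p j).1 : ℝ) - (p j).2) * γ j) : ℝ) : ℂ) * I * u) := by
    funext u
    simp only [te_mul]
    rw [Finset.prod_univ_sum]
    refine Finset.sum_congr rfl fun p _ => ?_
    rw [Finset.prod_mul_distrib, ← Complex.exp_sum]
    congr 2
    push_cast
    rw [Finset.sum_mul, Finset.sum_mul]
  rw [h1]
  have h2 := mean_sum (Fintype.piFinset fun _ : ι => Finset.range N ×ˢ Finset.range N)
    (f := fun p u => (∏ j, cf (z j) (p j)) *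
      exp ((((∑ j, (((p j).1 : ℝ) - (p j).2) * γ j) : ℝ) : ℂ) * I * u))
    (fun p => by fun_prop) (fun p => mean_exp _ _)
  convert! h2 using 2
  have h3 : ∀ p : ι → ℕ × ℕ,
      (if ∑ j, (((p j).1 : ℝ) - (p j).2) * γ j = 0 then ∏ j, cf (z j) (p j) else 0) =
      ∏ j, if (p j).1 = (p j).2 then cf (z j) (p j) else 0 := by
    intro p
    split_ifs with h
    · have h4 := hγ (fun j => ((p j).1 : ℤ) - (p j).2) (by push_cast; exact h)
      refine Finset.prod_congr rfl fun j _ => ?_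
      have h5 := congrFun h4 j
      simp only [Pi.zero_apply] at h5
      rw [if_pos (by omega)]
    · by_cases h4 : ∀ j, (p j).1 = (p j).2
      · exfalso
        refine h (Finset.sum_eq_zero fun j _ => ?_)
        rw [h4 j, sub_self, zero_mul]
      · push Not at h4
        obtain ⟨j, hj⟩ := h4
        exact (Finset.prod_eq_zero (Finset.mem_univ j) (if_neg hj)).symm
  simp only [h3]
  rw [← Finset.prod_univ_sum (fun _ : ι => Finset.range N ×ˢ Finset.range N)
    (fun j x => if x.1 = x.2 then cf (z j) x else 0)]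
  push_cast
  refine Finset.prod_congr rfl fun j _ => ?_
  unfold bn
  rw [Finset.sum_product]
  push_cast
  refine Finset.sum_congr rfl fun k hk => ?_
  rw [Finset.sum_ite_eq, if_pos hk, cf_diag]

/-- **Kronecker–Weyl**: the mean of `exp (i P)` for integrally independent frequencies -/
theorem kw_of_li {γ : ι → ℝ} (hγ : ∀ n : ι → ℤ, ∑ j, (n j : ℝ) * γ j = 0 → n = 0) (z : ι → ℂ) :
    Tendsto (M fun u => exp ((tpoly γ z u : ℂ) * I)) atTop (𝓝 ((∏ j, bz (z j) : ℝ) : ℂ)) := by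
  classical
  have hcont : Continuous fun u : ℝ => exp ((tpoly γ z u : ℂ) * I) := by
    have := tpoly_cont γ z
    fun_prop
  refine mean_unif hcont fun ε hε => ?_
  set B : ℝ := ∑ j, ‖z j‖ with hB
  have hBj : ∀ j, ‖z j‖ ≤ B := fun j =>
    Finset.single_le_sum (f := fun j => ‖z j‖) (fun i _ => norm_nonneg _) (Finset.mem_univ j)
  have hB0 : 0 ≤ B := Finset.sum_nonneg fun j _ => norm_nonneg _
  set R : ℝ := Real.exp B * Real.exp B with hR
  have hR1 : 1 ≤ R := one_le_mul_of_one_le_of_one_le (Real.one_le_exp hB0) (Real.one_le_exp hB0)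
  set n : ℕ := (Finset.univ : Finset ι).card with hn
  set K : ℝ := (n : ℝ) * R ^ n * (2 * Real.exp B) + 1 with hK
  have hK0 : 0 < K := by positivity
  obtain ⟨N₁, hN₁⟩ := te_close (B := B) (show 0 < ε / K by positivity)
  have ht : Tendsto (fun N => ((∏ j, bn N (z j) : ℝ) : ℂ)) atTop (𝓝 ((∏ j, bz (z j) : ℝ) : ℂ)) := by
    refine (Complex.continuous_ofReal.tendsto _).comp ?_
    exact tendsto_finset_prod _ fun j _ => bn_tendsto (z j)
  obtain ⟨N₂, hN₂⟩ := eventually_atTop.1 (Metric.tendsto_nhds.1 ht ε hε)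
  set N := max N₁ N₂ with hN
  have hc2 : Continuous fun u : ℝ => ∏ j, (te N (ew (γ j) (z j) u) * te N (ewc (γ j) (z j) u)) := by
    unfold te ew ewc
    fun_prop
  refine ⟨_, _, hc2, mean_trunc hγ z N, ?_, fun u => ?_⟩
  · rw [← dist_eq_norm]
    exact (hN₂ N (le_max_right _ _)).le
  · rw [exp_tpoly]
    have he : ∀ w : ℂ, ‖w‖ ≤ B → ‖exp w‖ ≤ Real.exp B := fun w hw => by
      rw [Complex.norm_exp]
      exact Real.exp_le_exp.2 ((Complex.re_le_norm w).trans hw)
    have h1 : ∀ j, ‖exp (ew (γ j) (z j) u) - te N (ew (γ j) (z j) u)‖ ≤ ε / K := fun j =>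
      hN₁ N (le_max_left _ _) _ (by rw [ew_norm]; exact hBj j)
    have h2 : ∀ j, ‖exp (ewc (γ j) (z j) u) - te N (ewc (γ j) (z j) u)‖ ≤ ε / K := fun j =>
      hN₁ N (le_max_left _ _) _ (by rw [ewc_norm]; exact hBj j)
    have e1 : ∀ j, ‖exp (ew (γ j) (z j) u)‖ ≤ Real.exp B := fun j => he _ (by rw [ew_norm]; exact hBj j)
    have e2 : ∀ j, ‖exp (ewc (γ j) (z j) u)‖ ≤ Real.exp B := fun j => he _ (by rw [ewc_norm]; exact hBj j)
    have e3 : ∀ j, ‖te N (ew (γ j) (z j) u)‖ ≤ Real.exp B := fun j =>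
      te_bound N (by rw [ew_norm]; exact hBj j)
    have e4 : ∀ j, ‖te N (ewc (γ j) (z j) u)‖ ≤ Real.exp B := fun j =>
      te_bound N (by rw [ewc_norm]; exact hBj j)
    have h3 := prod_close (Finset.univ : Finset ι) (ε := ε / K * (2 * Real.exp B))
      (a := fun j => exp (ew (γ j) (z j) u) * exp (ewc (γ j) (z j) u))
      (b := fun j => te N (ew (γ j) (z j) u) * te N (ewc (γ j) (z j) u)) hR1 (by positivity)
      (fun j _ => by
        rw [norm_mul]
        exact mul_le_mul (e1 j) (e2 j) (norm_nonneg _) (Real.exp_pos _).le)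
      (fun j _ => by
        rw [norm_mul]
        exact mul_le_mul (e3 j) (e4 j) (norm_nonneg _) (Real.exp_pos _).le)
      (fun j _ => by
        have h4 : exp (ew (γ j) (z j) u) * exp (ewc (γ j) (z j) u) -
            te N (ew (γ j) (z j) u) * te N (ewc (γ j) (z j) u) =
            (exp (ew (γ j) (z j) u) - te N (ew (γ j) (z j) u)) * exp (ewc (γ j) (z j) u) +
            te N (ew (γ j) (z j) u) * (exp (ewc (γ j) (z j) u) - te N (ewc (γ j) (z j) u)) := by ring
        rw [h4]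
        refine (norm_add_le _ _).trans ?_
        rw [norm_mul, norm_mul]
        have h5 := mul_le_mul (h1 j) (e2 j) (norm_nonneg _) (by positivity)
        have h6 := mul_le_mul (e3 j) (h2 j) (norm_nonneg _) (Real.exp_pos _).le
        linarith)
    refine h3.trans ?_
    rw [← hn]
    have h7 : (n : ℝ) * R ^ n * (ε / K * (2 * Real.exp B)) = ε * (((n : ℝ) * R ^ n * (2 * Real.exp B)) / K) := by
      ring
    rw [h7]
    have h8 : ((n : ℝ) * R ^ n * (2 * Real.exp B)) / K ≤ 1 := by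
      rw [div_le_one hK0, hK]
      linarith
    nlinarith

end Pool.Agent.Q5.LI
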