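import Pool.Agent.Q5.LI.Art

/-!
# Central orders
-/

set_option autoImplicit false

open MeasureTheory Filter Topology Set Complex

namespace Pool.Agent.Q5.LI

/-- the order from the leading term -/
theorem ord_of_lead {F : ℂ → ℂ} {c A : ℂ} {r : ℕ} (hF : AnalyticAt ℂ F c) (hA : A ≠ 0)
    (h : Tendsto (fun s : ℂ => F s / (s - c) ^ r) (𝓝[≠] c) (𝓝 A)) : analyticOrderAt F c = r := by
  have hsub : ∀ n : ℕ, n ≠ 0 → Tendsto (fun s : ℂ => (s - c) ^ n) (𝓝[≠] c) (𝓝 0) := by
    intro n hn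
    have h1 : Continuous fun s : ℂ => (s - c) ^ n := by fun_prop
    have h2 := h1.tendsto c
    rw [sub_self, zero_pow hn] at h2
    exact h2.mono_left nhdsWithin_le_nhds
  have hne : analyticOrderAt F c ≠ ⊤ := by
    intro h0
    rw [analyticOrderAt_eq_top] at h0
    have h1 : Tendsto (fun s : ℂ => F s / (s - c) ^ r) (𝓝[≠] c) (𝓝 0) := by
      refine tendsto_const_nhds.congr' ?_
      filter_upwards [h0.filter_mono nhdsWithin_le_nhds] with s hs
      rw [hs, zero_div]
    exact hA (tendsto_nhds_unique h h1)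
  obtain ⟨k, hk⟩ := ENat.ne_top_iff_exists.1 hne
  obtain ⟨g, hg, hg0, hgF⟩ := (hF.analyticOrderAt_eq_natCast).1 hk.symm
  have hgc : Tendsto g (𝓝[≠] c) (𝓝 (g c)) := hg.continuousAt.tendsto.mono_left nhdsWithin_le_nhds
  rw [← hk]
  rcases lt_trichotomy k r with h1 | h1 | h1
  · exfalso
    have h2 := h.mul (hsub (r - k) (by omega))
    rw [mul_zero] at h2
    refine hg0 (tendsto_nhds_unique hgc (h2.congr' ?_))
    filter_upwards [hgF.filter_mono nhdsWithin_le_nhds, self_mem_nhdsWithin] with s hs hs0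
    have h3 : s - c ≠ 0 := sub_ne_zero.2 hs0
    have h4 : (s - c) ^ r = (s - c) ^ k * (s - c) ^ (r - k) := by
      rw [← pow_add]
      congr 1
      omega
    rw [hs, h4, smul_eq_mul]
    field_simp
  · rw [h1]
  · exfalso
    have h2 := (hsub (k - r) (by omega)).mul hgc
    rw [zero_mul] at h2
    refine hA (tendsto_nhds_unique h (h2.congr' ?_))
    filter_upwards [hgF.filter_mono nhdsWithin_le_nhds, self_mem_nhdsWithin] with s hs hs0
    have h3 : s - c ≠ 0 := sub_ne_zero.2 hs0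
    have h4 : (s - c) ^ k = (s - c) ^ r * (s - c) ^ (k - r) := by
      rw [← pow_add]
      congr 1
      omega
    rw [hs, h4, smul_eq_mul]
    field_simp

/-- the order of vanishing at `1/2` is given by the leading term -/
theorem order_lead {N : ℕ} {β : Nat.Primes → Fin N → ℂ} {F : ℂ → ℂ} (hF : TempH β F) {ρ A : ℝ}
    (hA : 0 < A) (h : LeadH F ρ A) : ((analyticOrderAt F (1 / 2)).toNat : ℝ) = ρ := by
  obtain ⟨r, hr, h1⟩ := h
  have h2 := ord_of_lead (hF.ana (s := (1 / 2 : ℂ)) (by norm_num)) (by exact_mod_cast hA.ne') h1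
  rw [h2, hr]
  rfl

end Pool.Agent.Q5.LI
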