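import Pool.Agent.Q5.LI.Conv
import Pool.Agent.Q5.AP.Joint

/-!
# Shifts and trigonometric polynomials in the class `Par`
-/

set_option autoImplicit false

open Filter Topology Set Complex MeasureTheory
open Pool.Agent.Q5.AP

namespace Pool.Agent.Q5.LI

/-- the mean of a shifted function -/
theorem mean_shift {F : ℝ → ℂ} {h : ℝ} (hh : 0 ≤ h)
    (hF : ∀ T : ℝ, 0 < T → IntervalIntegrable F volume 0 T) {L : ℂ} (hL : Tendsto (M F) atTop (𝓝 L)) :
    Tendsto (M fun u => F (u + h)) atTop (𝓝 L) := by
  have hF0 : IntervalIntegrable F volume 0 h := by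
    rcases hh.eq_or_lt with h0 | h0
    · rw [← h0]
    · exact hF h h0
  have h1 : Tendsto (fun T : ℝ => M F (T + h)) atTop (𝓝 L) :=
    hL.comp (tendsto_atTop_add_const_right atTop h tendsto_id)
  have h2 : Tendsto (fun T : ℝ => (((T + h) / T : ℝ) : ℂ)) atTop (𝓝 1) := by
    have h3 : Tendsto (fun T : ℝ => 1 + h / T) atTop (𝓝 (1 + 0)) :=
      tendsto_const_nhds.add (tendsto_const_nhds.div_atTop tendsto_id)
    have h4 : Tendsto (fun T : ℝ => (T + h) / T) atTop (𝓝 1) := by
      rw [add_zero] at h3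
      refine h3.congr' ?_
      filter_upwards [eventually_gt_atTop 0] with T hT
      field_simp
    have h5 := (Complex.continuous_ofReal.tendsto 1).comp h4
    rw [Complex.ofReal_one] at h5
    exact h5
  have h5 : Tendsto (fun T : ℝ => (∫ u in (0 : ℝ)..h, F u) / (T : ℂ)) atTop (𝓝 0) := by
    have h6 : Tendsto (fun T : ℝ => ‖∫ u in (0 : ℝ)..h, F u‖ / T) atTop (𝓝 0) :=
      tendsto_const_nhds.div_atTop tendsto_id
    refine squeeze_zero_norm' ?_ h6
    filter_upwards [eventually_gt_atTop 0] with T hT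
    rw [norm_div, Complex.norm_real, Real.norm_of_nonneg hT.le]
  have h7 := (h1.mul h2).sub h5
  rw [mul_one, sub_zero] at h7
  refine h7.congr' ?_
  filter_upwards [eventually_gt_atTop 0] with T hT
  have hTh : 0 < T + h := by linarith
  have hTc : (T : ℂ) ≠ 0 := by exact_mod_cast hT.ne'
  have hThc : ((T + h : ℝ) : ℂ) ≠ 0 := by exact_mod_cast hTh.ne'
  unfold M
  rw [intervalIntegral.integral_comp_add_right, zero_add,
    ← intervalIntegral.integral_interval_sub_left (hF _ hTh) hF0]
  push_cast at hThc ⊢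
  field_simp

theorem ii_ofReal {g : ℝ → ℝ} {x y : ℝ} (h : IntervalIntegrable g volume x y) :
    IntervalIntegrable (fun u => (g u : ℂ)) volume x y := by
  rw [intervalIntegrable_iff] at h ⊢
  exact Integrable.ofReal h

variable {f : ℝ → ℂ} {a : ℝ → ℂ} {V : ℝ}

theorem L2.shift (hf : L2 f) {h : ℝ} (hh : 0 ≤ h) : L2 fun u => f (u + h) := by
  intro T hT
  have h1 : MemLp f 2 (volume.restrict (Ioc h (T + h))) :=
    (hf (T + h) (by linarith)).mono_measure (Measure.restrict_mono (Ioc_subset_Ioc hh le_rfl) le_rfl)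
  have h2 : MeasurePreserving (fun u : ℝ => u + h) (volume.restrict (Ioc 0 T))
      (volume.restrict (Ioc h (T + h))) := by
    have h3 := (measurePreserving_add_right volume h).restrict_preimage_emb
      (measurableEmbedding_addRight h) (Ioc h (T + h))
    have e : (fun u : ℝ => u + h) ⁻¹' Ioc h (T + h) = Ioc 0 T := by
      ext u
      simp only [mem_preimage, mem_Ioc]
      constructor
      · rintro ⟨h1, h2⟩
        exact ⟨by linarith, by linarith⟩
      · rintro ⟨h1, h2⟩
        exact ⟨by linarith, by linarith⟩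
    rwa [e] at h3
  exact h1.comp_measurePreserving h2

/-- shifts -/
theorem Par.shift (P : Par f a V) {h : ℝ} (hh : 0 ≤ h) :
    Par (fun u => f (u + h)) (fun t => a t * exp ((t * h : ℝ) * I)) V where
  loc := L2.shift P.loc hh
  ms := by
    have h1 : Tendsto (M fun u => ((‖f u‖ ^ 2 : ℝ) : ℂ)) atTop (𝓝 (V : ℂ)) := by
      have := (Complex.continuous_ofReal.tendsto V).comp P.ms
      refine this.congr fun T => ?_
      rw [M_ofReal]
      rfl
    have h2 := mean_shift hh (fun T hT => ii_ofReal (P.loc.sq hT)) h1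
    have h3 := (Complex.continuous_re.tendsto _).comp h2
    rw [Complex.ofReal_re] at h3
    refine h3.congr fun T => ?_
    rw [Function.comp_apply, M_ofReal (fun u => ‖f (u + h)‖ ^ 2), Complex.ofReal_re]
  co t := by
    have h2 := (mean_shift hh (fun T hT => (P.loc.exp t).int hT) (P.co t)).const_mul
      (exp ((t * h : ℝ) * I))
    rw [mul_comm (a t)]
    refine h2.congr fun T => ?_
    rw [← M_const_mul]
    congr 1
    funext u
    have e : exp (((t * h : ℝ) : ℂ) * I) * exp (-(t * I * ((u + h : ℝ) : ℂ))) = exp (-(t * I * u)) := by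
      rw [← Complex.exp_add]
      congr 1
      push_cast
      ring
    rw [mul_left_comm, e]
  pa := by
    have h1 := P.pa
    convert! h1 using 1
    funext t
    rw [norm_mul, Complex.norm_exp_ofReal_mul_I, mul_one]

/-- exponentials -/
theorem par_exp (c : ℂ) (l : ℝ) :
    Par (fun u => c * exp (l * I * u)) (fun t => if t = l then c else 0) (‖c‖ ^ 2) where
  loc := l2_cont (by fun_prop)
  ms := by
    refine tendsto_const_nhds.congr' ?_
    filter_upwards [eventually_gt_atTop 0] with T hT
    unfold MR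
    have e : ∀ u : ℝ, ‖c * exp (l * I * u)‖ ^ 2 = ‖c‖ ^ 2 := by
      intro u
      rw [norm_mul, Complex.norm_exp]
      simp
    simp only [e]
    rw [intervalIntegral.integral_const, sub_zero, smul_eq_mul]
    field_simp
  co t := by
    have h1 := mean_exp c (l - t)
    have e : (if t = l then c else 0) = if l - t = 0 then c else 0 := by
      by_cases h : t = l
      · simp [h]
      · rw [if_neg h, if_neg fun h' => h (by linarith)]
    rw [e]
    refine h1.congr fun T => ?_
    congr 1
    funext u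
    rw [mul_assoc c, ← Complex.exp_add]
    congr 2
    push_cast
    ring
  pa := by
    have h1 : (fun t : ℝ => ‖(if t = l then c else 0 : ℂ)‖ ^ 2) = fun t => if t = l then ‖c‖ ^ 2 else 0 := by
      funext t
      split_ifs <;> simp
    rw [h1]
    exact hasSum_ite_eq l (‖c‖ ^ 2)

/-- finite sums -/
theorem par_sum {κ : Type*} (s : Finset κ) {f : κ → ℝ → ℂ} {a : κ → ℝ → ℂ} {V : κ → ℝ}
    (h : ∀ i ∈ s, Par (f i) (a i) (V i)) :
    ∃ U : ℝ, Par (fun u => ∑ i ∈ s, f i u) (fun t => ∑ i ∈ s, a i t) U := by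
  classical
  induction s using Finset.induction_on with
  | empty => exact ⟨0, by simpa only [Finset.sum_empty] using par_zero⟩
  | insert i s hi ih =>
    obtain ⟨U, hU⟩ := ih fun j hj => h j (Finset.mem_insert_of_mem hj)
    have h1 := (h i (Finset.mem_insert_self i s)).add hU
    exact ⟨_, by simpa only [Finset.sum_insert hi] using h1⟩

/-- the coefficients of a trigonometric polynomial -/
noncomputable def tco {ι : Type*} [Fintype ι] (γ : ι → ℝ) (z : ι → ℂ) (t : ℝ) : ℂ :=
  ∑ j, ((if t = γ j then z j else 0) + if t = -γ j then (starRingEnd ℂ) (z j) else 0)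

theorem par_tpoly {ι : Type*} [Fintype ι] (γ : ι → ℝ) (z : ι → ℂ) :
    ∃ U : ℝ, Par (fun u => (tpoly γ z u : ℂ)) (tco γ z) U := by
  have h1 : ∀ j ∈ (Finset.univ : Finset ι), Par
      (fun u => z j * exp (γ j * I * u) + (starRingEnd ℂ) (z j) * exp (((-γ j : ℝ) : ℂ) * I * u))
      (fun t => (if t = γ j then z j else 0) + if t = -γ j then (starRingEnd ℂ) (z j) else 0) _ :=
    fun j _ => (par_exp (z j) (γ j)).add (par_exp ((starRingEnd ℂ) (z j)) (-γ j))
  obtain ⟨U, hU⟩ := par_sum Finset.univ h1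
  refine ⟨U, ?_⟩
  unfold tco tpoly
  convert! hU using 1
  funext u
  push_cast
  refine Finset.sum_congr rfl fun j _ => ?_
  have h1 := Complex.add_conj (z j * exp (γ j * I * u))
  rw [map_mul, ← Complex.exp_conj] at h1
  have h2 : (starRingEnd ℂ) ((γ j : ℂ) * I * u) = -γ j * I * u := by simp
  rw [h2] at h1
  push_cast at h1
  exact h1.symm

/-- the limits of the means of `exp (iG)` and `exp (iP)` for close functions -/
theorem exp_lip {G P : ℝ → ℝ} (hG : L2 fun u => (G u : ℂ)) (hP : L2 fun u => (P u : ℂ))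
    {d : ℝ → ℂ} {W : ℝ} (hD : Par (fun u => (G u : ℂ) - P u) d W) {x y : ℂ}
    (hx : Tendsto (M fun u => exp ((G u : ℂ) * I)) atTop (𝓝 x))
    (hy : Tendsto (M fun u => exp ((P u : ℂ) * I)) atTop (𝓝 y)) : ‖x - y‖ ≤ √W := by
  have hW := hD.nonneg
  have key : ∀ s : ℝ, 0 < s → ‖x - y‖ ≤ (s * W + s⁻¹) / 2 := by
    intro s hs
    refine le_of_tendsto_of_tendsto (hx.sub hy).norm
      (((hD.ms.const_mul s).add_const s⁻¹).div_const 2) ?_
    filter_upwards [eventually_gt_atTop 0] with T hT
    refine exp_diff hG hP hD.loc (fun u => ?_) hs hT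
    rw [← Complex.ofReal_sub, Complex.norm_real, Real.norm_eq_abs]
  rcases hW.eq_or_lt with h0 | h0
  · rw [← h0, Real.sqrt_zero]
    refine le_of_forall_pos_le_add fun ε hε => ?_
    have h1 := key ε⁻¹ (by positivity)
    rw [← h0, mul_zero, zero_add, inv_inv] at h1
    linarith
  · have h1 : 0 < √W := Real.sqrt_pos.2 h0
    refine (key (√W)⁻¹ (by positivity)).trans (le_of_eq ?_)
    rw [inv_inv]
    have h2 : (√W)⁻¹ * W = √W := by
      rw [inv_mul_eq_div, Real.div_sqrt]
    rw [h2]
    ring

end Pool.Agent.Q5.LI
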